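import Mathlib

/-!
Menger's theorem for sets of vertices of a finite graph.
-/

set_option autoImplicit false

namespace Pool.Agent.LNK

open SimpleGraph

variable {W : Type*}

/-- `v` can be reached from `S` avoiding `Z` -/
inductive Rch (H : SimpleGraph W) (S Z : Set W) : W → Prop
  | base (v : W) : v ∈ S → v ∉ Z → Rch H S Z v
  | step (u v : W) : Rch H S Z u → H.Adj u v → v ∉ Z → Rch H S Z v

theorem Rch.not_mem {H : SimpleGraph W} {S Z : Set W} {v : W} (h : Rch H S Z v) : v ∉ Z := by
  cases h <;> assumption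

theorem Rch.walk {H : SimpleGraph W} {S Z : Set W} {u v : W} (p : H.Walk u v) :
    Rch H S Z u → (∀ x ∈ p.support, x ∉ Z) → Rch H S Z v := by
  induction p with
  | nil => intro h _; exact h
  | cons hadj p ih =>
    intro h hp
    refine ih (Rch.step _ _ h hadj (hp _ ?_)) fun x hx => hp x ?_
    · rw [Walk.support_cons]
      exact List.mem_cons_of_mem _ p.start_mem_support
    · rw [Walk.support_cons]
      exact List.mem_cons_of_mem _ hx

theorem Rch.exists_walk {H : SimpleGraph W} {S Z : Set W} {v : W} (h : Rch H S Z v) :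
    ∃ s ∈ S, ∃ p : H.Walk s v, ∀ x ∈ p.support, x ∉ Z := by
  induction h with
  | base v hv hz => exact ⟨v, hv, Walk.nil, by simpa using hz⟩
  | step u v _ hadj hz ih =>
    obtain ⟨s, hs, p, hp⟩ := ih
    refine ⟨s, hs, p.concat hadj, fun x hx => ?_⟩
    rw [Walk.support_concat, List.mem_append, List.mem_singleton] at hx
    rcases hx with hx | rfl
    · exact hp x hx
    · exact hz

theorem Rch.join {H : SimpleGraph W} {S T Z : Set W} {v : W} (h' : Rch H T Z v) :
    Rch H S Z v → ∃ t ∈ T, Rch H S Z t := by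
  induction h' with
  | base v hv _ => intro h; exact ⟨v, hv, h⟩
  | step u v hu hadj _ ih => intro h; exact ih (Rch.step _ _ h hadj.symm hu.not_mem)

theorem Rch.mono_set {H : SimpleGraph W} {S Z Z' : Set W} (hZ : Z' ⊆ Z) {v : W} (h : Rch H S Z v) :
    Rch H S Z' v := by
  induction h with
  | base v hv hz => exact Rch.base v hv fun h => hz (hZ h)
  | step u v _ hadj hz ih => exact Rch.step u v ih hadj fun h => hz (hZ h)

/-- `Z` separates `T` from `S` -/
def Sep (H : SimpleGraph W) (S T Z : Set W) : Prop := ∀ t ∈ T, ¬ Rch H S Z t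

theorem Sep.symm {H : SimpleGraph W} {S T Z : Set W} (h : Sep H S T Z) : Sep H T S Z := by
  intro s hs hr
  obtain ⟨t, ht, h'⟩ := hr.join (Rch.base s hs hr.not_mem)
  exact h t ht h'

/-- `n` disjoint paths from `S` to `T` -/
def Lkd (H : SimpleGraph W) (S T : Set W) (n : ℕ) : Prop :=
  ∃ (a b : Fin n → W) (w : ∀ i, H.Walk (a i) (b i)), (∀ i, a i ∈ S) ∧ (∀ i, b i ∈ T) ∧
    (∀ i, (w i).IsPath) ∧ ∀ i j, i ≠ j → ∀ v, v ∈ (w i).support → v ∉ (w j).support

theorem Lkd.of_walks {H : SimpleGraph W} {S T : Set W} {n : ℕ} (a b : Fin n → W)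
    (w : ∀ i, H.Walk (a i) (b i)) (ha : ∀ i, a i ∈ S) (hb : ∀ i, b i ∈ T)
    (hw : ∀ i j, i ≠ j → ∀ v, v ∈ (w i).support → v ∉ (w j).support) : Lkd H S T n := by
  classical
  refine ⟨a, b, fun i => (w i).bypass, ha, hb, fun i => (w i).bypass_isPath, fun i j hij v hv hv' => ?_⟩
  exact hw i j hij v ((w i).support_bypass_subset_support hv) ((w j).support_bypass_subset_support hv')

private theorem hit_or {H : SimpleGraph W} {S Z Z0 : Set W} {v : W} (h : Rch H S Z v) :
    (∃ z ∈ Z0, Rch H S Z z) ∨ Rch H S Z0 v := by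
  induction h with
  | base v hv hz =>
    by_cases h0 : v ∈ Z0
    · exact Or.inl ⟨v, h0, Rch.base v hv hz⟩
    · exact Or.inr (Rch.base v hv h0)
  | step u v hu hadj hz ih =>
    rcases ih with ih | ih
    · exact Or.inl ih
    · by_cases h0 : v ∈ Z0
      · exact Or.inl ⟨v, h0, Rch.step u v hu hadj hz⟩
      · exact Or.inr (Rch.step u v ih hadj h0)

private theorem adj_del {H : SimpleGraph W} {x y u v : W} (h : H.Adj u v) :
    (H.deleteEdges {s(x, y)}).Adj u v ∨ (u = x ∧ v = y) ∨ (u = y ∧ v = x) := by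
  rw [deleteEdges_adj]
  by_cases he : s(u, v) ∈ ({s(x, y)} : Set (Sym2 W))
  · rw [Set.mem_singleton_iff, Sym2.eq_iff] at he
    exact Or.inr he
  · exact Or.inl ⟨h, he⟩

private theorem sep_aux {H : SimpleGraph W} {S T Z Z0 : Set W} {x y : W}
    (hZ : Sep (H.deleteEdges {s(x, y)}) S T Z0) (hy : Rch (H.deleteEdges {s(x, y)}) T Z0 y)
    (hP : Sep (H.deleteEdges {s(x, y)}) S (insert x Z0) Z) : Sep H S T Z := by
  have key : ∀ v, Rch H S Z v → Rch (H.deleteEdges {s(x, y)}) S Z v := by
    intro v hv
    induction hv with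
    | base v hv hz => exact Rch.base v hv hz
    | step u v _ hadj hz ih =>
      rcases adj_del (x := x) (y := y) hadj with h | ⟨rfl, rfl⟩ | ⟨rfl, rfl⟩
      · exact Rch.step u v ih h hz
      · exact absurd ih (hP _ (Set.mem_insert _ _))
      · exfalso
        rcases hit_or (Z0 := Z0) ih with ⟨z, hz0, hr⟩ | hr
        · exact hP z (Set.mem_insert_of_mem _ hz0) hr
        · obtain ⟨t, ht, h'⟩ := hy.join hr
          exact hZ t ht h'
  intro t ht hr
  rcases hit_or (Z0 := Z0) (key t hr) with ⟨z, hz0, hr⟩ | hr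
  · exact hP z (Set.mem_insert_of_mem _ hz0) hr
  · exact hZ t ht hr

private theorem first_cross {H : SimpleGraph W} {S Z0 : Set W} {x y v : W} (h : Rch H S Z0 v) :
    Rch (H.deleteEdges {s(x, y)}) S Z0 v ∨ Rch (H.deleteEdges {s(x, y)}) S Z0 x ∨
      Rch (H.deleteEdges {s(x, y)}) S Z0 y := by
  induction h with
  | base v hv hz => exact Or.inl (Rch.base v hv hz)
  | step u v _ hadj hz ih =>
    rcases ih with ih | ih
    · rcases adj_del (x := x) (y := y) hadj with h | ⟨rfl, rfl⟩ | ⟨rfl, rfl⟩
      · exact Or.inl (Rch.step u v ih h hz)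
      · exact Or.inr (Or.inl ih)
      · exact Or.inr (Or.inr ih)
    · exact Or.inr ih

private theorem cross {H : SimpleGraph W} {S T Z0 : Set W} {x y : W}
    (hZ : Sep (H.deleteEdges {s(x, y)}) S T Z0) (hn : ¬ Sep H S T Z0) :
    (Rch (H.deleteEdges {s(x, y)}) S Z0 x ∧ Rch (H.deleteEdges {s(x, y)}) T Z0 y) ∨
      (Rch (H.deleteEdges {s(x, y)}) S Z0 y ∧ Rch (H.deleteEdges {s(x, y)}) T Z0 x) := by
  unfold Sep at hn
  push Not at hn
  obtain ⟨t, ht, hr⟩ := hn
  have h1 : Rch (H.deleteEdges {s(x, y)}) S Z0 x ∨ Rch (H.deleteEdges {s(x, y)}) S Z0 y := by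
    rcases first_cross (x := x) (y := y) hr with h | h
    · exact absurd h (hZ t ht)
    · exact h
  have h2 : Rch (H.deleteEdges {s(x, y)}) T Z0 x ∨ Rch (H.deleteEdges {s(x, y)}) T Z0 y := by
    obtain ⟨s', hs', hr'⟩ := hr.join (S := T) (Rch.base t ht hr.not_mem)
    rcases first_cross (x := x) (y := y) hr' with h | h
    · exact absurd h (hZ.symm s' hs')
    · exact h
  have h3 : ∀ z, Rch (H.deleteEdges {s(x, y)}) S Z0 z → ¬ Rch (H.deleteEdges {s(x, y)}) T Z0 z := by
    intro z h h'
    obtain ⟨t', ht', h''⟩ := h'.join h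
    exact hZ t' ht' h''
  rcases h1 with h1 | h1 <;> rcases h2 with h2 | h2
  · exact absurd h2 (h3 _ h1)
  · exact Or.inl ⟨h1, h2⟩
  · exact Or.inr ⟨h1, h2⟩
  · exact absurd h2 (h3 _ h1)

private theorem supp_cases {H : SimpleGraph W} {S Z0 P : Set W} (hZP : Z0 ⊆ P) {u b : W} (p : H.Walk u b) :
    p.IsPath → (∀ v ∈ p.support, v ∈ P → v = b) → (u ∉ Z0 → Rch H S Z0 u) →
    ∀ v ∈ p.support, (v = b ∧ b ∈ Z0) ∨ Rch H S Z0 v := by
  induction p with
  | nil =>
    intro _ _ h v hv
    rw [Walk.support_nil, List.mem_singleton] at hv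
    subst hv
    by_cases h0 : v ∈ Z0
    · exact Or.inl ⟨rfl, h0⟩
    · exact Or.inr (h h0)
  | @cons u u' b hadj p ih =>
    intro hp hP h v hv
    rw [Walk.cons_isPath_iff] at hp
    have hub : u ≠ b := by
      rintro rfl
      exact hp.2 p.end_mem_support
    have hu0 : u ∉ Z0 := fun h0 => hub (hP u (Walk.start_mem_support _) (hZP h0))
    have hu := h hu0
    rw [Walk.support_cons, List.mem_cons] at hv
    rcases hv with rfl | hv
    · exact Or.inr hu
    · refine ih hp.1 (fun v hv' hvP => hP v ?_ hvP) (fun h0 => Rch.step _ _ hu hadj h0) v hv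
      rw [Walk.support_cons]
      exact List.mem_cons_of_mem _ hv'

/-- the ends of `n` disjoint paths to a set of `n` vertices -/
private theorem ends_surj {H : SimpleGraph W} {n : ℕ} {P : Finset W} (hP : P.card = n) {a b : Fin n → W}
    (w : ∀ i, H.Walk (a i) (b i)) (hb : ∀ i, b i ∈ P)
    (hw : ∀ i j, i ≠ j → ∀ v, v ∈ (w i).support → v ∉ (w j).support) :
    (∀ p ∈ P, ∃ i, b i = p) ∧ ∀ i, ∀ v ∈ (w i).support, v ∈ P → v = b i := by
  classical
  have hinj : Function.Injective b := by
    intro i j hij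
    by_contra hne
    refine hw i j hne (b i) (Walk.end_mem_support _) ?_
    rw [hij]
    exact Walk.end_mem_support _
  have himg : Finset.univ.image b = P := by
    refine Finset.eq_of_subset_of_card_le ?_ ?_
    · intro p hp
      rw [Finset.mem_image] at hp
      obtain ⟨i, -, rfl⟩ := hp
      exact hb i
    · rw [Finset.card_image_of_injective _ hinj, hP, Finset.card_univ, Fintype.card_fin]
  have hs : ∀ p ∈ P, ∃ i, b i = p := by
    intro p hp
    rw [← himg, Finset.mem_image] at hp
    obtain ⟨i, -, hi⟩ := hp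
    exact ⟨i, hi⟩
  refine ⟨hs, fun i v hv hvP => ?_⟩
  obtain ⟨j, rfl⟩ := hs v hvP
  by_contra hne
  have hij : i ≠ j := fun h => hne (by rw [h])
  exact hw i j hij _ hv (Walk.end_mem_support _)

private theorem combine {H : SimpleGraph W} {S T : Set W} {n : ℕ} {x y : W} {Z0 : Finset W} (hxy : H.Adj x y)
    (hx0 : x ∉ Z0) (hy0 : y ∉ Z0) (hP : (Z0.card + 1 = n))
    (hZ : Sep (H.deleteEdges {s(x, y)}) S T Z0)
    (h1 : Lkd (H.deleteEdges {s(x, y)}) S (insert x (Z0 : Set W)) n)
    (h2 : Lkd (H.deleteEdges {s(x, y)}) T (insert y (Z0 : Set W)) n) : Lkd H S T n := by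
  classical
  obtain ⟨a, b, w, ha, hb, hp, hw⟩ := h1
  obtain ⟨a', b', w', ha', hb', hp', hw'⟩ := h2
  have hPc : (insert x Z0).card = n := by rw [Finset.card_insert_of_notMem hx0, hP]
  have hQc : (insert y Z0).card = n := by rw [Finset.card_insert_of_notMem hy0, hP]
  obtain ⟨hs, hu⟩ := ends_surj hPc w (fun i => by simpa using hb i) hw
  obtain ⟨hs', hu'⟩ := ends_surj hQc w' (fun i => by simpa using hb' i) hw'
  have c1 : ∀ i, ∀ v ∈ (w i).support, (v = b i ∧ b i ∈ (Z0 : Set W)) ∨ Rch (H.deleteEdges {s(x, y)}) S Z0 v := by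
    intro i
    refine supp_cases (P := ((insert x Z0 : Finset W) : Set W)) ?_ (w i) (hp i) (fun v hv hvP => hu i v hv (by simpa using hvP))
      (fun h => Rch.base _ (ha i) h)
    intro z hz
    simp only [Finset.coe_insert]
    exact Set.mem_insert_of_mem _ hz
  have c2 : ∀ i, ∀ v ∈ (w' i).support, (v = b' i ∧ b' i ∈ (Z0 : Set W)) ∨ Rch (H.deleteEdges {s(x, y)}) T Z0 v := by
    intro i
    refine supp_cases (P := ((insert y Z0 : Finset W) : Set W)) ?_ (w' i) (hp' i) (fun v hv hvP => hu' i v hv (by simpa using hvP))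
      (fun h => Rch.base _ (ha' i) h)
    intro z hz
    simp only [Finset.coe_insert]
    exact Set.mem_insert_of_mem _ hz
  have c3 : ∀ i m, ∀ v, v ∈ (w i).support → v ∈ (w' m).support → b i = b' m ∧ b i ∈ Z0 := by
    intro i m v hv hv'
    rcases c1 i v hv with ⟨h3, h4⟩ | h3
    · rcases c2 m v hv' with ⟨h5, _⟩ | h5
      · exact ⟨h3.symm.trans h5, by simpa using h4⟩
      · rw [h3] at h5
        exact absurd h4 h5.not_mem
    · rcases c2 m v hv' with ⟨h5, h6⟩ | h5
      · rw [h5] at h3
        exact absurd h6 h3.not_mem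
      · obtain ⟨t, ht, h7⟩ := h5.join h3
        exact absurd h7 (hZ t ht)
  have hex : ∀ i, ∃ m, b' m = if b i = x then y else b i := by
    intro i
    refine hs' _ ?_
    have h3 := hb i
    rw [Set.mem_insert_iff] at h3
    by_cases h4 : b i = x
    · rw [if_pos h4]
      exact Finset.mem_insert_self _ _
    · rw [if_neg h4]
      rcases h3 with h3 | h3
      · exact absurd h3 h4
      · exact Finset.mem_insert_of_mem (by simpa using h3)
  choose π hπ using hex
  have hbinj : Function.Injective b := by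
    intro i j hij
    by_contra hne
    refine hw i j hne (b i) (Walk.end_mem_support _) ?_
    rw [hij]
    exact Walk.end_mem_support _
  have hπinj : Function.Injective π := by
    intro i j hij
    have h3 := hπ i
    rw [hij, hπ j] at h3
    by_cases hi : b i = x <;> by_cases hj : b j = x
    · exact hbinj (hi.trans hj.symm)
    · rw [if_pos hi, if_neg hj] at h3
      have h4 := hb j
      rw [Set.mem_insert_iff] at h4
      rcases h4 with h4 | h4
      · exact absurd h4 hj
      · rw [h3] at h4
        exact absurd (by simpa using h4) hy0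
    · rw [if_neg hi, if_pos hj] at h3
      have h4 := hb i
      rw [Set.mem_insert_iff] at h4
      rcases h4 with h4 | h4
      · exact absurd h4 hi
      · rw [← h3] at h4
        exact absurd (by simpa using h4) hy0
    · rw [if_neg hi, if_neg hj] at h3
      exact hbinj h3.symm
  have hle : H.deleteEdges {s(x, y)} ≤ H := deleteEdges_le _
  have hwalk : ∀ i, ∃ q : H.Walk (a i) (a' (π i)), ∀ v ∈ q.support, v ∈ (w i).support ∨ v ∈ (w' (π i)).support := by
    intro i
    have e1 : ∀ v, v ∈ ((w i).mapLe hle).support ↔ v ∈ (w i).support := fun v => by simp [Walk.mapLe]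
    have e2 : ∀ v, v ∈ ((w' (π i)).mapLe hle).support ↔ v ∈ (w' (π i)).support := fun v => by simp [Walk.mapLe]
    by_cases hi : b i = x
    · have h3 : b' (π i) = y := by rw [hπ i, if_pos hi]
      have hadj : H.Adj (b i) (b' (π i)) := by rw [hi, h3]; exact hxy
      refine ⟨((w i).mapLe hle).append (Walk.cons hadj ((w' (π i)).mapLe hle).reverse), fun v hv => ?_⟩
      rw [Walk.mem_support_append_iff, Walk.support_cons, List.mem_cons, Walk.support_reverse, List.mem_reverse,
        e1, e2] at hv
      rcases hv with hv | hv | hv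
      · exact Or.inl hv
      · rw [hv]
        exact Or.inl (Walk.end_mem_support _)
      · exact Or.inr hv
    · have h3 : b' (π i) = b i := by rw [hπ i, if_neg hi]
      refine ⟨((w i).mapLe hle).append ((((w' (π i)).mapLe hle).copy rfl h3).reverse), fun v hv => ?_⟩
      rw [Walk.mem_support_append_iff, Walk.support_reverse, List.mem_reverse, Walk.support_copy, e1, e2] at hv
      exact hv
  choose q hq using hwalk
  refine Lkd.of_walks a (fun i => a' (π i)) q ha (fun i => ha' (π i)) fun i j hij v hv hv' => ?_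
  rcases hq i v hv with h3 | h3 <;> rcases hq j v hv' with h4 | h4
  · exact hw i j hij v h3 h4
  · obtain ⟨h5, h6⟩ := c3 i (π j) v h3 h4
    rw [hπ j] at h5
    by_cases hj : b j = x
    · rw [if_pos hj] at h5
      rw [h5] at h6
      exact hy0 h6
    · rw [if_neg hj] at h5
      exact hij (hbinj h5)
  · obtain ⟨h5, h6⟩ := c3 j (π i) v h4 h3
    rw [hπ i] at h5
    by_cases hi : b i = x
    · rw [if_pos hi] at h5
      rw [h5] at h6
      exact hy0 h6
    · rw [if_neg hi] at h5
      exact hij (hbinj h5.symm)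
  · exact hw' (π i) (π j) (fun h => hij (hπinj h)) v h3 h4

private theorem menger_aux [Finite W] (m : ℕ) : ∀ (H : SimpleGraph W), H.edgeSet.ncard = m → ∀ (S T : Set W) (n : ℕ),
    (∀ Z : Finset W, Sep H S T Z → n ≤ Z.card) → Lkd H S T n := by
  classical
  induction m using Nat.strong_induction_on with
  | _ m ih =>
    intro H hm S T n hn
    by_cases hE : H.edgeSet = ∅
    · have hfin : (S ∩ T).Finite := Set.toFinite _
      have h1 : Sep H S T (hfin.toFinset : Set W) := by
        intro t ht hr
        have h2 : t ∈ S := by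
          cases hr with
          | base _ h _ => exact h
          | step u _ _ hadj _ =>
            exfalso
            have : s(u, t) ∈ H.edgeSet := hadj
            rw [hE] at this
            exact this
        exact hr.not_mem (by simpa using ⟨h2, ht⟩)
      obtain ⟨P, hP, hc⟩ := Finset.exists_subset_card_eq (hn _ h1)
      have e := P.equivFinOfCardEq hc
      refine ⟨fun i => (e.symm i : W), fun i => (e.symm i : W), fun i => Walk.nil, ?_, ?_, ?_, ?_⟩
      · intro i
        have := hP (e.symm i).2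
        rw [Set.Finite.mem_toFinset] at this
        exact this.1
      · intro i
        have := hP (e.symm i).2
        rw [Set.Finite.mem_toFinset] at this
        exact this.2
      · intro i
        exact Walk.IsPath.nil
      · intro i j hij v hv hv'
        rw [Walk.support_nil, List.mem_singleton] at hv hv'
        exact hij (e.symm.injective (Subtype.ext (hv.symm.trans hv')))
    · obtain ⟨e, he⟩ := Set.nonempty_iff_ne_empty.2 hE
      induction e using Sym2.ind with
      | _ x y =>
      have hlt : (H.deleteEdges {s(x, y)}).edgeSet.ncard < m := by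
        rw [edgeSet_deleteEdges, ← hm]
        exact Set.ncard_sdiff_singleton_lt_of_mem he (Set.toFinite _)
      by_cases hall : ∀ Z : Finset W, Sep (H.deleteEdges {s(x, y)}) S T Z → n ≤ Z.card
      · obtain ⟨a, b, w, ha, hb, hp, hw⟩ := ih _ hlt _ rfl S T n hall
        have hle : H.deleteEdges {s(x, y)} ≤ H := deleteEdges_le _
        refine Lkd.of_walks a b (fun i => (w i).mapLe hle) ha hb fun i j hij v hv hv' => ?_
        simp only [Walk.mapLe, Walk.support_map, List.mem_map, Hom.coe_ofLE, id_eq, exists_eq_right] at hv hv'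
        exact hw i j hij v hv hv'
      · push Not at hall
        obtain ⟨Z0, hZ0, hlt0⟩ := hall
        have hn0 : ¬ Sep H S T Z0 := fun h => absurd (hn Z0 h) (by omega)
        have main : ∀ x y : W, H.Adj x y → (H.deleteEdges {s(x, y)}).edgeSet.ncard < m →
            Sep (H.deleteEdges {s(x, y)}) S T Z0 →
            Rch (H.deleteEdges {s(x, y)}) S Z0 x → Rch (H.deleteEdges {s(x, y)}) T Z0 y → Lkd H S T n := by
          intro x y hadj hlt hZ hx hy
          have hx0 : x ∉ Z0 := fun h => hx.not_mem (by simpa using h)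
          have hy0 : y ∉ Z0 := fun h => hy.not_mem (by simpa using h)
          have e : s(x, y) = s(y, x) := Sym2.eq_swap
          have k1 : ∀ Z : Finset W, Sep (H.deleteEdges {s(x, y)}) S (insert x (Z0 : Set W)) Z → n ≤ Z.card :=
            fun Z h => hn Z (sep_aux hZ hy h)
          have k2 : ∀ Z : Finset W, Sep (H.deleteEdges {s(x, y)}) T (insert y (Z0 : Set W)) Z → n ≤ Z.card := by
            intro Z h
            refine hn Z (Sep.symm ?_)
            rw [e] at hZ hx h
            exact sep_aux hZ.symm hx h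
          have hc : Z0.card + 1 = n := by
            have h3 : Sep (H.deleteEdges {s(x, y)}) S (insert x (Z0 : Set W)) ((insert x Z0 : Finset W) : Set W) := by
              intro z hz hr
              exact hr.not_mem (by simpa using hz)
            have h4 := k1 _ h3
            rw [Finset.card_insert_of_notMem hx0] at h4
            omega
          exact combine hadj hx0 hy0 hc hZ (ih _ hlt _ rfl _ _ n k1) (ih _ hlt _ rfl _ _ n k2)
        rcases cross hZ0 hn0 with ⟨h1, h2⟩ | ⟨h1, h2⟩
        · exact main x y he hlt hZ0 h1 h2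
        · have e : s(x, y) = s(y, x) := Sym2.eq_swap
          rw [e] at hlt hZ0 h1 h2
          exact main y x (H.adj_symm he) hlt hZ0 h1 h2

/-- Menger's theorem: if every set separating `T` from `S` has at least `n` vertices, there are `n` disjoint
paths from `S` to `T`. -/
theorem menger [Finite W] (H : SimpleGraph W) (S T : Set W) (n : ℕ)
    (hn : ∀ Z : Finset W, Sep H S T Z → n ≤ Z.card) : Lkd H S T n :=
  menger_aux _ H rfl S T n hn

end Pool.Agent.LNK
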