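import Mathlib
import Pool.Agent.LNK.Menger

/-!
Separations of a set of terminals from a set of hubs by vertices and leaves: uncrossing.
-/

set_option autoImplicit false

namespace Pool.Agent.LNK

open SimpleGraph

/-- `u` and `v` are joined by a walk inside `P` -/
def Jn {V : Type*} (G : SimpleGraph V) (P : Set V) (u v : V) : Prop :=
  ∃ w : G.Walk u v, ∀ x ∈ w.support, x ∈ P

theorem Jn.refl {V : Type*} {G : SimpleGraph V} {P : Set V} {u : V} (h : u ∈ P) : Jn G P u u :=
  ⟨Walk.nil, by simpa using h⟩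

theorem Jn.symm {V : Type*} {G : SimpleGraph V} {P : Set V} {u v : V} (h : Jn G P u v) : Jn G P v u := by
  obtain ⟨w, hw⟩ := h
  exact ⟨w.reverse, fun x hx => hw x (by simpa using hx)⟩

theorem Jn.trans {V : Type*} {G : SimpleGraph V} {P : Set V} {u v z : V} (h : Jn G P u v)
    (h' : Jn G P v z) : Jn G P u z := by
  obtain ⟨w, hw⟩ := h
  obtain ⟨w', hw'⟩ := h'
  refine ⟨w.append w', fun x hx => ?_⟩
  rw [Walk.mem_support_append_iff] at hx
  rcases hx with hx | hx
  · exact hw x hx
  · exact hw' x hx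

theorem Jn.mono {V : Type*} {G : SimpleGraph V} {P Q : Set V} (hPQ : P ⊆ Q) {u v : V} (h : Jn G P u v) :
    Jn G Q u v := by
  obtain ⟨w, hw⟩ := h
  exact ⟨w, fun x hx => hPQ (hw x hx)⟩

theorem Jn.of_adj {V : Type*} {G : SimpleGraph V} {P : Set V} {u v : V} (h : G.Adj u v) (hu : u ∈ P)
    (hv : v ∈ P) : Jn G P u v := by
  refine ⟨h.toWalk, fun x hx => ?_⟩
  simp only [Walk.support_cons, Walk.support_nil, List.mem_cons, List.not_mem_nil, or_false] at hx
  rcases hx with rfl | rfl
  · exact hu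
  · exact hv

theorem jn_of_connected {V : Type*} {G : SimpleGraph V} {P : Set V} (h : (G.induce P).Connected) {u v : V}
    (hu : u ∈ P) (hv : v ∈ P) : Jn G P u v := by
  obtain ⟨w⟩ := h.preconnected ⟨u, hu⟩ ⟨v, hv⟩
  refine ⟨w.map (Embedding.induce P).toHom, fun x hx => ?_⟩
  erw [Walk.support_map] at hx
  rw [List.mem_map] at hx
  obtain ⟨y, _, rfl⟩ := hx
  exact y.2

section

variable {V ι : Type*} [Finite V] [Finite ι] (G : SimpleGraph V) (X A : Set V) (B : ι → Set V)

/-- the vertices of a pair -/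
def Yy (Z : Finset V) (D : Finset ι) : Set V := {v | v ∈ Z ∨ ∃ j ∈ D, v ∈ B j}

/-- `(Z, D)` separates the hubs outside `Z` from the terminals, and there are such hubs -/
def IsP (Z : Finset V) (D : Finset ι) : Prop :=
  (∀ a ∈ A, ¬ Rch G X (Yy B Z D) a) ∧ ∃ a ∈ A, a ∉ Z

/-- standing hypotheses on hubs and leaves -/
structure Hyp : Prop where
  disj : ∀ i j, i ≠ j → ∀ v, v ∈ B i → v ∉ B j
  hub : ∀ j, ∀ a ∈ A, a ∉ B j
  conn : ∀ j, ∀ u ∈ B j, ∀ v ∈ B j, Jn G (B j) u v
  adj : ∀ j, ∀ a ∈ A, ∃ b ∈ B j, G.Adj a b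

variable {G X A B}

omit [Finite V] [Finite ι] in
theorem unhit (h : Hyp G A B) {Z : Finset V} {D : Finset ι} (hp : IsP G X A B Z D) {j : ι}
    (hj : j ∉ D) (hz : ∀ z ∈ Z, z ∉ B j) {v : V} (hv : v ∈ B j) : ¬ Rch G X (Yy B Z D) v := by
  intro hr
  obtain ⟨hp1, a, ha, haZ⟩ := hp
  have hY : ∀ x ∈ B j, x ∉ Yy B Z D := by
    rintro x hx (hx' | ⟨i, hi, hx'⟩)
    · exact hz x hx' hx
    · by_cases hij : i = j
      · subst hij; exact hj hi
      · exact h.disj i j hij x hx' hx
  obtain ⟨b, hb, hab⟩ := h.adj j a ha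
  obtain ⟨w, hw⟩ := h.conn j v hv b hb
  have hb' : Rch G X (Yy B Z D) b := hr.walk w fun x hx => hY x (hw x hx)
  refine hp1 a ha (Rch.step b a hb' hab.symm ?_)
  rintro (hx' | ⟨i, _, hx'⟩)
  · exact haZ hx'
  · exact h.hub i a ha hx'

open Classical in
/-- the inner pair, vertices -/
noncomputable def Zin (G : SimpleGraph V) (X : Set V) (B : ι → Set V) (Z Z' : Finset V) (D D' : Finset ι) :
    Finset V :=
  (Z ∪ Z').filter fun v => (¬ ∃ j ∈ D ∪ D', v ∈ B j) ∧
    (Rch G X (Yy B Z D) v ∨ v ∈ Yy B Z D) ∧ (Rch G X (Yy B Z' D') v ∨ v ∈ Yy B Z' D')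

open Classical in
/-- the outer pair, vertices -/
noncomputable def Zout (G : SimpleGraph V) (X : Set V) (B : ι → Set V) (Z Z' : Finset V) (D D' : Finset ι) :
    Finset V :=
  (Z ∪ Z').filter fun v => (¬ ∃ j ∈ D ∪ D', v ∈ B j) ∧
    ¬ Rch G X (Yy B Z D) v ∧ ¬ Rch G X (Yy B Z' D') v

open Classical in
/-- the inner pair, leaves -/
noncomputable def Din (B : ι → Set V) (Z Z' : Finset V) (D D' : Finset ι) : Finset ι :=
  (D ∪ D').filter fun j => (j ∈ D ∨ ∃ z ∈ Z, z ∈ B j) ∧ (j ∈ D' ∨ ∃ z ∈ Z', z ∈ B j)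

omit [Finite V] [Finite ι] in
open Classical in
theorem rch_in (h : Hyp G A B) {Z Z' : Finset V} {D D' : Finset ι} (hp : IsP G X A B Z D)
    (hp' : IsP G X A B Z' D') {v : V} (hv : Rch G X (Yy B (Zin G X B Z Z' D D') (Din B Z Z' D D')) v) :
    Rch G X (Yy B Z D) v ∧ Rch G X (Yy B Z' D') v := by
  have key : ∀ v : V, v ∉ Yy B (Zin G X B Z Z' D D') (Din B Z Z' D D') →
      (v ∉ Yy B Z D → Rch G X (Yy B Z D) v) → (v ∉ Yy B Z' D' → Rch G X (Yy B Z' D') v) →
      Rch G X (Yy B Z D) v ∧ Rch G X (Yy B Z' D') v := by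
    intro v hv h1 h2
    by_cases hB : ∃ j ∈ D ∪ D', v ∈ B j
    · exfalso
      obtain ⟨j, hj, hvj⟩ := hB
      apply hv
      right
      refine ⟨j, ?_, hvj⟩
      unfold Din
      rw [Finset.mem_filter]
      refine ⟨hj, ?_, ?_⟩
      · by_contra hc
        push Not at hc
        have hY : v ∉ Yy B Z D := by
          rintro (hx | ⟨i, hi, hx⟩)
          · exact hc.2 v hx hvj
          · by_cases hij : i = j
            · subst hij; exact hc.1 hi
            · exact h.disj i j hij v hx hvj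
        exact unhit h hp hc.1 hc.2 hvj (h1 hY)
      · by_contra hc
        push Not at hc
        have hY : v ∉ Yy B Z' D' := by
          rintro (hx | ⟨i, hi, hx⟩)
          · exact hc.2 v hx hvj
          · by_cases hij : i = j
            · subst hij; exact hc.1 hi
            · exact h.disj i j hij v hx hvj
        exact unhit h hp' hc.1 hc.2 hvj (h2 hY)
    · have hYc : ¬ (v ∈ Yy B Z D ∨ v ∈ Yy B Z' D') := by
        intro hY
        apply hv
        left
        unfold Zin
        rw [Finset.mem_filter]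
        refine ⟨?_, hB, ?_, ?_⟩
        · rw [Finset.mem_union]
          rcases hY with (hx | ⟨i, hi, hx⟩) | (hx | ⟨i, hi, hx⟩)
          · exact Or.inl hx
          · exact absurd ⟨i, Finset.mem_union_left _ hi, hx⟩ hB
          · exact Or.inr hx
          · exact absurd ⟨i, Finset.mem_union_right _ hi, hx⟩ hB
        · by_cases hy : v ∈ Yy B Z D
          · exact Or.inr hy
          · exact Or.inl (h1 hy)
        · by_cases hy : v ∈ Yy B Z' D'
          · exact Or.inr hy
          · exact Or.inl (h2 hy)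
      push Not at hYc
      exact ⟨h1 hYc.1, h2 hYc.2⟩
  induction hv with
  | base v hv hz => exact key v hz (fun h1 => Rch.base v hv h1) (fun h1 => Rch.base v hv h1)
  | step u v _ hadj hz ih =>
    exact key v hz (fun h1 => Rch.step u v ih.1 hadj h1) (fun h1 => Rch.step u v ih.2 hadj h1)

omit [Finite V] [Finite ι] in
open Classical in
theorem rch_out {Z Z' : Finset V} {D D' : Finset ι} {v : V}
    (hv : Rch G X (Yy B (Zout G X B Z Z' D D') (D ∪ D')) v) :
    Rch G X (Yy B Z D) v ∨ Rch G X (Yy B Z' D') v := by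
  have key : ∀ v : V, v ∉ Yy B (Zout G X B Z Z' D D') (D ∪ D') →
      ((v ∉ Yy B Z D → Rch G X (Yy B Z D) v) ∨ (v ∉ Yy B Z' D' → Rch G X (Yy B Z' D') v)) →
      Rch G X (Yy B Z D) v ∨ Rch G X (Yy B Z' D') v := by
    intro v hv h1
    by_contra hc
    push Not at hc
    have hB : ¬ ∃ j ∈ D ∪ D', v ∈ B j := fun hB => hv (Or.inr hB)
    apply hv
    left
    unfold Zout
    rw [Finset.mem_filter]
    refine ⟨?_, hB, hc⟩
    rw [Finset.mem_union]
    rcases h1 with h1 | h1
    · by_cases hy : v ∈ Yy B Z D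
      · rcases hy with hx | ⟨i, hi, hx⟩
        · exact Or.inl hx
        · exact absurd ⟨i, Finset.mem_union_left _ hi, hx⟩ hB
      · exact absurd (h1 hy) hc.1
    · by_cases hy : v ∈ Yy B Z' D'
      · rcases hy with hx | ⟨i, hi, hx⟩
        · exact Or.inr hx
        · exact absurd ⟨i, Finset.mem_union_right _ hi, hx⟩ hB
      · exact absurd (h1 hy) hc.2
  induction hv with
  | base v hv hz => exact key v hz (Or.inl fun h1 => Rch.base v hv h1)
  | step u v _ hadj hz ih =>
    refine key v hz ?_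
    rcases ih with ih | ih
    · exact Or.inl fun h1 => Rch.step u v ih hadj h1
    · exact Or.inr fun h1 => Rch.step u v ih hadj h1

omit [Finite V] [Finite ι] in
open Classical in
/-- the number of leaves hit by a set of vertices -/
theorem card_hit (h : Hyp G A B) (E : Finset ι) (Z : Finset V) (hE : ∀ j ∈ E, ∃ z ∈ Z, z ∈ B j) :
    E.card ≤ (Z.filter fun v => ∃ j ∈ E, v ∈ B j).card := by
  rcases E.eq_empty_or_nonempty with rfl | ⟨j0, hj0⟩
  · simp
  have : Nonempty V := ⟨(hE j0 hj0).choose⟩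
  choose! f hf using hE
  refine Finset.card_le_card_of_injOn f ?_ ?_
  · intro j hj
    have := hf j hj
    simp only [Finset.coe_filter, Set.mem_ofPred_eq]
    exact ⟨this.1, j, hj, this.2⟩
  · intro i hi j hj hij
    by_contra hne
    exact h.disj i j hne (f i) (hf i hi).2 (hij ▸ (hf j hj).2)

omit [Finite V] [Finite ι] in
open Classical in
/-- the costs -/
theorem cost_le (h : Hyp G A B) {Z Z' : Finset V} {D D' : Finset ι} :
    (Zin G X B Z Z' D D').card + (Din B Z Z' D D').card +
      ((Zout G X B Z Z' D D').card + (D ∪ D').card) ≤ (Z.card + D.card) + (Z'.card + D'.card) := by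
  set bu : V → Prop := fun v => ∃ j ∈ D ∪ D', v ∈ B j with hbu
  -- vertices
  have h1 : Zin G X B Z Z' D D' ∪ Zout G X B Z Z' D D' ⊆ (Z ∪ Z').filter fun v => ¬ bu v := by
    intro v hv
    rw [Finset.mem_union] at hv
    unfold Zin Zout at hv
    rw [Finset.mem_filter, Finset.mem_filter] at hv
    rw [Finset.mem_filter]
    rcases hv with hv | hv
    · exact ⟨hv.1, hv.2.1⟩
    · exact ⟨hv.1, hv.2.1⟩
  have h2 : Zin G X B Z Z' D D' ∩ Zout G X B Z Z' D D' ⊆ (Z ∩ Z').filter fun v => ¬ bu v := by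
    intro v hv
    rw [Finset.mem_inter] at hv
    unfold Zin Zout at hv
    rw [Finset.mem_filter, Finset.mem_filter] at hv
    obtain ⟨⟨_, hb, h3, h4⟩, _, _, h5, h6⟩ := hv
    rw [Finset.mem_filter, Finset.mem_inter]
    refine ⟨⟨?_, ?_⟩, hb⟩
    · rcases h3.resolve_left h5 with hx | ⟨i, hi, hx⟩
      · exact hx
      · exact absurd ⟨i, Finset.mem_union_left _ hi, hx⟩ hb
    · rcases h4.resolve_left h6 with hx | ⟨i, hi, hx⟩
      · exact hx
      · exact absurd ⟨i, Finset.mem_union_right _ hi, hx⟩ hb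
  have h3 := Finset.card_le_card h1
  have h4 := Finset.card_le_card h2
  have h5 := Finset.card_union_add_card_inter (Zin G X B Z Z' D D') (Zout G X B Z Z' D D')
  have h6 : ((Z ∪ Z').filter fun v => ¬ bu v).card + ((Z ∩ Z').filter fun v => ¬ bu v).card =
      (Z.filter fun v => ¬ bu v).card + (Z'.filter fun v => ¬ bu v).card := by
    have := Finset.card_union_add_card_inter (Z.filter fun v => ¬ bu v) (Z'.filter fun v => ¬ bu v)
    rw [← Finset.filter_union, ← Finset.filter_inter_distrib] at this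
    exact this
  -- leaves
  set E1 : Finset ι := (D \ D').filter fun j => ∃ z ∈ Z', z ∈ B j with hE1
  set E2 : Finset ι := (D' \ D).filter fun j => ∃ z ∈ Z, z ∈ B j with hE2
  have h7 : Din B Z Z' D D' ⊆ (D ∩ D') ∪ (E1 ∪ E2) := by
    intro j hj
    unfold Din at hj
    rw [Finset.mem_filter] at hj
    obtain ⟨_, h8, h9⟩ := hj
    simp only [hE1, hE2, Finset.mem_union, Finset.mem_inter, Finset.mem_filter, Finset.mem_sdiff]
    by_cases hD : j ∈ D
    · by_cases hD' : j ∈ D'
      · exact Or.inl ⟨hD, hD'⟩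
      · exact Or.inr (Or.inl ⟨⟨hD, hD'⟩, h9.resolve_left hD'⟩)
    · have h10 := h8.resolve_left hD
      by_cases hD' : j ∈ D'
      · exact Or.inr (Or.inr ⟨⟨hD', hD⟩, h10⟩)
      · rename_i h11
        rw [Finset.mem_union] at h11
        exact absurd h11 (by tauto)
  have h8 : (Din B Z Z' D D').card ≤ (D ∩ D').card + (E1.card + E2.card) := by
    refine (Finset.card_le_card h7).trans ((Finset.card_union_le _ _).trans ?_)
    exact Nat.add_le_add_left (Finset.card_union_le _ _) _
  have h9 := Finset.card_union_add_card_inter D D'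
  have h10 : E1.card ≤ (Z'.filter fun v => bu v).card := by
    refine (card_hit h E1 Z' ?_).trans (Finset.card_le_card ?_)
    · intro j hj
      rw [hE1, Finset.mem_filter] at hj
      exact hj.2
    · intro v hv
      rw [Finset.mem_filter] at hv ⊢
      obtain ⟨hv, j, hj, hvj⟩ := hv
      rw [hE1, Finset.mem_filter, Finset.mem_sdiff] at hj
      exact ⟨hv, j, Finset.mem_union_left _ hj.1.1, hvj⟩
  have h11 : E2.card ≤ (Z.filter fun v => bu v).card := by
    refine (card_hit h E2 Z ?_).trans (Finset.card_le_card ?_)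
    · intro j hj
      rw [hE2, Finset.mem_filter] at hj
      exact hj.2
    · intro v hv
      rw [Finset.mem_filter] at hv ⊢
      obtain ⟨hv, j, hj, hvj⟩ := hv
      rw [hE2, Finset.mem_filter, Finset.mem_sdiff] at hj
      exact ⟨hv, j, Finset.mem_union_right _ hj.1.1, hvj⟩
  have h12 := Finset.card_filter_add_card_filter_not (s := Z) (fun v => bu v)
  have h13 := Finset.card_filter_add_card_filter_not (s := Z') (fun v => bu v)
  omega

end

end Pool.Agent.LNK
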