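import Mathlib
import Pool.Agent.LNK.Cut

/-!
Linking terminals to hubs and to their common neighbours, with some vertices deleted.
-/

set_option autoImplicit false

namespace Pool.Agent.LNK

open SimpleGraph

/-- `G` without the edges at the vertices in `F` -/
def Cof {V : Type*} (G : SimpleGraph V) (F : Set V) : SimpleGraph V where
  Adj u v := G.Adj u v ∧ u ∉ F ∧ v ∉ F
  symm := ⟨fun _ _ h => ⟨h.1.symm, h.2.2, h.2.1⟩⟩
  loopless := ⟨fun _ h => G.loopless.irrefl _ h.1⟩

section

variable {V : Type*} {G : SimpleGraph V}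

theorem rch_cof {F S Z : Set V} {u v : V} (w : G.Walk u v) :
    (∀ x ∈ w.support, x ∉ F ∧ x ∉ Z) → Rch (Cof G F) S Z u → Rch (Cof G F) S Z v := by
  induction w with
  | nil => intro _ h; exact h
  | @cons u v' v hadj p ih =>
    intro hs h
    have h1 := hs u (Walk.start_mem_support _)
    have h2 := hs v' (by rw [Walk.support_cons]; exact List.mem_cons_of_mem _ p.start_mem_support)
    exact ih (fun x hx => hs x (by rw [Walk.support_cons]; exact List.mem_cons_of_mem _ hx))
      (Rch.step u v' h ⟨hadj, h1.1, h2.1⟩ h2.2)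

theorem cof_le (F : Set V) : Cof G F ≤ G := fun _ _ h => h.1

theorem cof_avoid {F : Set V} {u v : V} (w : (Cof G F).Walk u v) : u ∉ F → ∀ x ∈ w.support, x ∉ F := by
  induction w with
  | nil =>
    intro h x hx
    rw [Walk.support_nil, List.mem_singleton] at hx
    rw [hx]
    exact h
  | cons hadj p ih =>
    intro h x hx
    rw [Walk.support_cons, List.mem_cons] at hx
    rcases hx with rfl | hx
    · exact h
    · exact ih hadj.2.2 x hx

/-- the part of a walk up to its first vertex in `T` -/
theorem upto {T : Set V} {u v : V} (w : G.Walk u v) : v ∈ T → ∃ (P : Set V) (τ : V), u ∈ P ∧ τ ∈ P ∧ τ ∈ T ∧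
    (∀ x ∈ P, x ∈ T → x = τ) ∧ (∀ x ∈ P, Jn G P u x) ∧ ∀ x ∈ P, x ∈ w.support := by
  induction w with
  | @nil u =>
    intro h
    refine ⟨{u}, u, rfl, rfl, h, fun x hx _ => hx, fun x hx => ?_, fun x hx => ?_⟩
    · rw [Set.mem_singleton_iff] at hx
      rw [hx]
      exact Jn.refl rfl
    · rw [Set.mem_singleton_iff] at hx
      rw [hx, Walk.support_nil, List.mem_singleton]
  | @cons u v' v hadj p ih =>
    intro h
    by_cases hu : u ∈ T
    · refine ⟨{u}, u, rfl, rfl, hu, fun x hx _ => hx, fun x hx => ?_, fun x hx => ?_⟩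
      · rw [Set.mem_singleton_iff] at hx
        rw [hx]
        exact Jn.refl rfl
      · rw [Set.mem_singleton_iff] at hx
        rw [hx]
        exact Walk.start_mem_support _
    · obtain ⟨P, τ, h1, h2, h3, h4, h5, h6⟩ := ih h
      refine ⟨insert u P, τ, Set.mem_insert _ _, Set.mem_insert_of_mem _ h2, h3, ?_, ?_, ?_⟩
      · intro x hx hxT
        rw [Set.mem_insert_iff] at hx
        rcases hx with rfl | hx
        · exact absurd hxT hu
        · exact h4 x hx hxT
      · intro x hx
        rw [Set.mem_insert_iff] at hx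
        rcases hx with rfl | hx
        · exact Jn.refl (Set.mem_insert _ _)
        · exact (Jn.of_adj hadj (Set.mem_insert _ _) (Set.mem_insert_of_mem _ h1)).trans
            ((h5 x hx).mono (Set.subset_insert _ _))
      · intro x hx
        rw [Set.mem_insert_iff] at hx
        rw [Walk.support_cons, List.mem_cons]
        rcases hx with rfl | hx
        · exact Or.inl rfl
        · exact Or.inr (h6 x hx)

open Classical in
/-- disjoint paths from the terminals `x y` to `T`, avoiding `F` -/
theorem tokens [Fintype V] {ι : Type*} [Fintype ι] (F T : Finset V) (x : ι → V)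
    (hx : Function.Injective x) (hxF : ∀ y, x y ∉ F) (hTF : ∀ v ∈ T, v ∉ F) (hT : Fintype.card ι ≤ T.card)
    (hc : ∀ Z : Finset V, Z.card < Fintype.card ι + F.card → ∀ u v, u ∉ Z → v ∉ Z →
      Jn G {v | v ∉ Z} u v) :
    ∃ (P : ι → Set V) (τ : ι → V), (∀ y, x y ∈ P y) ∧ (∀ y, τ y ∈ P y) ∧ (∀ y, τ y ∈ T) ∧
      (∀ y, ∀ v ∈ P y, v ∈ T → v = τ y) ∧ (∀ y, ∀ v ∈ P y, Jn G (P y) (x y) v) ∧
      (∀ y, ∀ v ∈ P y, v ∉ F) ∧ ∀ y y', y ≠ y' → ∀ v ∈ P y, v ∉ P y' := by
  obtain ⟨n, hn⟩ : ∃ n, n = Fintype.card ι := ⟨_, rfl⟩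
  have hl : Lkd (Cof G (F : Set V)) (Set.range x) (T : Set V) n := by
    refine menger _ _ _ _ fun Z hZ => ?_
    by_contra hlt
    push Not at hlt
    obtain ⟨y, hy⟩ : ∃ y, x y ∉ Z := by
      by_contra hcon
      push Not at hcon
      have h1 : Finset.univ.image x ⊆ Z := by
        intro v hv
        rw [Finset.mem_image] at hv
        obtain ⟨y, _, rfl⟩ := hv
        exact hcon y
      have h2 := Finset.card_le_card h1
      rw [Finset.card_image_of_injective _ hx, Finset.card_univ] at h2
      omega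
    obtain ⟨v, hvT, hvZ⟩ : ∃ v ∈ T, v ∉ Z := by
      by_contra hcon
      push Not at hcon
      have h2 := Finset.card_le_card (s := T) (t := Z) hcon
      omega
    obtain ⟨w, hw⟩ := hc (Z ∪ F) ((Finset.card_union_le _ _).trans_lt (by omega)) (x y) v
      (by rw [Finset.mem_union]; exact fun h => h.elim hy (hxF y))
      (by rw [Finset.mem_union]; exact fun h => h.elim hvZ (hTF v hvT))
    refine hZ v (by simpa using hvT) (rch_cof w (fun z hz => ?_) (Rch.base _ ⟨y, rfl⟩ (by simpa using hy)))
    have := hw z hz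
    rw [Set.mem_ofPred_eq, Finset.mem_union] at this
    push Not at this
    exact ⟨by simpa using this.2, by simpa using this.1⟩
  obtain ⟨a, b, w, ha, hb, _, hd⟩ := hl
  choose c hc' using ha
  have hcinj : Function.Injective c := by
    intro i j hij
    by_contra hne
    refine hd i j hne (a i) (w i).start_mem_support ?_
    rw [← hc' i, hij, hc' j]
    exact (w j).start_mem_support
  have hcs : Function.Surjective c := by
    refine ((Fintype.bijective_iff_injective_and_card c).2 ⟨hcinj, ?_⟩).2
    rw [Fintype.card_fin, hn]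
  choose e he using hcs
  have hup := fun y => upto (T := (T : Set V)) (w (e y)) (hb (e y))
  choose P τ h1 h2 h3 h4 h5 h6 using hup
  have hax : ∀ y, a (e y) = x y := fun y => by rw [← hc' (e y), he y]
  refine ⟨P, τ, ?_, h2, fun y => by simpa using h3 y, fun y v hv hvT => h4 y v hv (by simpa using hvT), ?_, ?_, ?_⟩
  · intro y
    rw [← hax y]
    exact h1 y
  · intro y v hv
    rw [← hax y]
    obtain ⟨q, hq⟩ := h5 y v hv
    refine ⟨q.mapLe (cof_le _), fun z hz => hq z ?_⟩
    simpa [Walk.mapLe] using hz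
  · intro y v hv
    have := cof_avoid (w (e y)) (by rw [hax y]; simpa using hxF y) v (h6 y v hv)
    simpa using this
  · intro y y' hyy v hv hv'
    refine hd (e y) (e y') ?_ v (h6 y v hv) (h6 y' v hv')
    intro h
    apply hyy
    rw [← he y, h, he y']

/-- disjoint connected sets containing the pairs give disjoint paths -/
theorem paths_of_sets {k : ℕ} (s t : Fin k → V) (C : Fin k → Set V) (hj : ∀ i, Jn G (C i) (s i) (t i))
    (hd : ∀ i j, i ≠ j → ∀ v ∈ C i, v ∉ C j) :
    ∃ p : ∀ i, G.Walk (s i) (t i), (∀ i, (p i).IsPath) ∧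
      ∀ i j, i ≠ j → ∀ v, v ∈ (p i).support → v ∉ (p j).support := by
  classical
  choose w hw using hj
  refine ⟨fun i => (w i).bypass, fun i => (w i).bypass_isPath, fun i j hij v hv hv' => ?_⟩
  exact hd i j hij v (hw i v ((w i).support_bypass_subset_support hv))
    (hw j v ((w j).support_bypass_subset_support hv'))

open Classical in
/-- joining the pairs when there are enough unoccupied hubs -/
theorem join_tokens {k : ℕ} (A U : Finset V) (hAU : ∀ a ∈ A, ∀ u ∈ U, G.Adj a u) (s t : Fin k → V)
    (P : Fin k ⊕ Fin k → Set V) (τ : Fin k ⊕ Fin k → V) (_h1 : ∀ y, Sum.elim s t y ∈ P y)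
    (h2 : ∀ y, τ y ∈ P y) (h3 : ∀ y, τ y ∈ A ∨ τ y ∈ U) (h4 : ∀ y, ∀ v ∈ P y, v ∈ A ∨ v ∈ U → v = τ y)
    (h5 : ∀ y, ∀ v ∈ P y, Jn G (P y) (Sum.elim s t y) v) (h6 : ∀ y y', y ≠ y' → ∀ v ∈ P y, v ∉ P y')
    (hU : 3 * k ≤ U.card)
    (hq : (Finset.univ.filter fun i : Fin k => τ (Sum.inl i) ∈ U ∧ τ (Sum.inr i) ∈ U).card ≤
      (A \ Finset.univ.image τ).card) :
    ∃ p : ∀ i, G.Walk (s i) (t i), (∀ i, (p i).IsPath) ∧
      ∀ i j, i ≠ j → ∀ v, v ∈ (p i).support → v ∉ (p j).support := by
  have hdj : ∀ v, v ∈ A → v ∉ U := fun v hv hv' => (hAU v hv v hv').ne rfl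
  obtain ⟨g⟩ : Nonempty ({i // i ∈ Finset.univ.filter fun i : Fin k => τ (Sum.inl i) ∈ U ∧ τ (Sum.inr i) ∈ U} ↪
      {a // a ∈ A \ Finset.univ.image τ}) := by
    apply Function.Embedding.nonempty_of_card_le
    rw [Fintype.card_coe, Fintype.card_coe]
    exact hq
  obtain ⟨f⟩ : Nonempty (Fin k ↪ {a // a ∈ U \ Finset.univ.image τ}) := by
    apply Function.Embedding.nonempty_of_card_le
    rw [Fintype.card_coe, Fintype.card_fin]
    have e1 := Finset.le_card_sdiff (Finset.univ.image τ) U
    have e2 : (Finset.univ.image τ).card ≤ 2 * k := by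
      refine Finset.card_image_le.trans ?_
      rw [Finset.card_univ, Fintype.card_sum, Fintype.card_fin]
      omega
    omega
  have hgA : ∀ z, (g z).1 ∈ A ∧ ∀ y, (g z).1 ∉ P y := by
    intro z
    obtain ⟨e1, e2⟩ := Finset.mem_sdiff.1 (g z).2
    refine ⟨e1, fun y hy => e2 ?_⟩
    rw [Finset.mem_image]
    exact ⟨y, Finset.mem_univ _, (h4 y _ hy (Or.inl e1)).symm⟩
  have hfU : ∀ z, (f z).1 ∈ U ∧ ∀ y, (f z).1 ∉ P y := by
    intro z
    obtain ⟨e1, e2⟩ := Finset.mem_sdiff.1 (f z).2
    refine ⟨e1, fun y hy => e2 ?_⟩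
    rw [Finset.mem_image]
    exact ⟨y, Finset.mem_univ _, (h4 y _ hy (Or.inr e1)).symm⟩
  have hs : ∀ i, s i = Sum.elim s t (Sum.inl i) := fun _ => rfl
  have ht : ∀ i, t i = Sum.elim s t (Sum.inr i) := fun _ => rfl
  obtain ⟨C, hC⟩ : ∃ C : Fin k → Set V, ∀ i v, v ∈ C i ↔ v ∈ P (Sum.inl i) ∨ v ∈ P (Sum.inr i) ∨ v = (f i).1 ∨
      ∃ hi : i ∈ Finset.univ.filter fun i : Fin k => τ (Sum.inl i) ∈ U ∧ τ (Sum.inr i) ∈ U, v = (g ⟨i, hi⟩).1 :=
    ⟨fun i => {v | v ∈ P (Sum.inl i) ∨ v ∈ P (Sum.inr i) ∨ v = (f i).1 ∨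
      ∃ hi : i ∈ Finset.univ.filter fun i : Fin k => τ (Sum.inl i) ∈ U ∧ τ (Sum.inr i) ∈ U,
        v = (g ⟨i, hi⟩).1}, fun _ _ => Iff.rfl⟩
  refine paths_of_sets s t C (fun i => ?_) fun i j hij v hv hv' => ?_
  · have c1 : P (Sum.inl i) ⊆ C i := fun v hv => (hC i v).2 (Or.inl hv)
    have c2 : P (Sum.inr i) ⊆ C i := fun v hv => (hC i v).2 (Or.inr (Or.inl hv))
    have c3 : (f i).1 ∈ C i := (hC i _).2 (Or.inr (Or.inr (Or.inl rfl)))
    have e1 : Jn G (C i) (s i) (τ (Sum.inl i)) := (h5 (Sum.inl i) _ (h2 _)).mono c1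
    have e2 : Jn G (C i) (τ (Sum.inr i)) (t i) := ((h5 (Sum.inr i) _ (h2 _)).mono c2).symm
    have m1 := c1 (h2 (Sum.inl i))
    have m2 := c2 (h2 (Sum.inr i))
    refine e1.trans (Jn.trans ?_ e2)
    by_cases a1 : τ (Sum.inl i) ∈ U
    · by_cases a2 : τ (Sum.inr i) ∈ U
      · have hi : i ∈ Finset.univ.filter fun i : Fin k => τ (Sum.inl i) ∈ U ∧ τ (Sum.inr i) ∈ U :=
          Finset.mem_filter.2 ⟨Finset.mem_univ _, a1, a2⟩
        have c4 : (g ⟨i, hi⟩).1 ∈ C i := (hC i _).2 (Or.inr (Or.inr (Or.inr ⟨hi, rfl⟩)))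
        exact (Jn.of_adj (hAU _ (hgA _).1 _ a1).symm m1 c4).trans (Jn.of_adj (hAU _ (hgA _).1 _ a2) c4 m2)
      · exact Jn.of_adj (hAU _ ((h3 _).resolve_right a2) _ a1).symm m1 m2
    · by_cases a2 : τ (Sum.inr i) ∈ U
      · exact Jn.of_adj (hAU _ ((h3 _).resolve_right a1) _ a2) m1 m2
      · exact (Jn.of_adj (hAU _ ((h3 _).resolve_right a1) _ (hfU i).1) m1 c3).trans
          (Jn.of_adj (hAU _ ((h3 _).resolve_right a2) _ (hfU i).1).symm c3 m2)
  · rw [hC] at hv hv'
    rcases hv with hv | hv | hv | ⟨hi, hv⟩ <;> rcases hv' with hv' | hv' | hv' | ⟨hi', hv'⟩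
    · exact h6 _ _ (fun h => hij (Sum.inl_injective h)) v hv hv'
    · exact h6 _ _ (by simp) v hv hv'
    · rw [hv'] at hv
      exact (hfU j).2 _ hv
    · rw [hv'] at hv
      exact (hgA _).2 _ hv
    · exact h6 _ _ (by simp) v hv hv'
    · exact h6 _ _ (fun h => hij (Sum.inr_injective h)) v hv hv'
    · rw [hv'] at hv
      exact (hfU j).2 _ hv
    · rw [hv'] at hv
      exact (hgA _).2 _ hv
    · rw [hv] at hv'
      exact (hfU i).2 _ hv'
    · rw [hv] at hv'
      exact (hfU i).2 _ hv'
    · exact hij (f.injective (Subtype.ext (hv.symm.trans hv')))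
    · refine hdj v ?_ ?_
      · rw [hv']; exact (hgA _).1
      · rw [hv]; exact (hfU _).1
    · rw [hv] at hv'
      exact (hgA _).2 _ hv'
    · rw [hv] at hv'
      exact (hgA _).2 _ hv'
    · refine hdj v ?_ ?_
      · rw [hv]; exact (hgA _).1
      · rw [hv']; exact (hfU _).1
    · have := g.injective (Subtype.ext (hv.symm.trans hv'))
      exact hij (congrArg Subtype.val this)

open Classical in
/-- two vertices in a highly connected graph are joined by a path missing many vertices of a given set -/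
theorem detour [Fintype V] (F U : Finset V) (a b : V) (hab : a ≠ b) (ha : a ∉ F) (hb : b ∉ F)
    (hc : ∀ Z : Finset V, Z.card < F.card + 2 → ∀ u v, u ∉ Z → v ∉ Z → Jn G {v | v ∉ Z} u v) :
    ∃ C : Finset V, Jn G (C : Set V) a b ∧ (∀ v ∈ C, v ∉ F) ∧ U.card ≤ 2 * (U \ C).card + 4 := by
  by_cases hadj : G.Adj a b
  · refine ⟨{a, b}, Jn.of_adj hadj (by simp) (by simp), ?_, ?_⟩
    · intro v hv
      rw [Finset.mem_insert, Finset.mem_singleton] at hv
      rcases hv with rfl | rfl
      · exact ha
      · exact hb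
    · have e1 := Finset.le_card_sdiff {a, b} U
      have e2 := Finset.card_le_two (a := a) (b := b)
      omega
  · set F' : Finset V := insert a (insert b F) with hF'
    set S : Set V := {v | G.Adj a v ∧ v ∉ F'} with hS
    set T : Set V := {v | G.Adj b v ∧ v ∉ F'} with hT
    have hl : Lkd (Cof G (F' : Set V)) S T 2 := by
      refine menger _ _ _ _ fun Z hZ => ?_
      by_contra hlt
      push Not at hlt
      obtain ⟨w, hw⟩ := hc ((Z \ {a, b}) ∪ F) ((Finset.card_union_le _ _).trans_lt (by
        have := Finset.card_le_card (Finset.sdiff_subset (s := Z) (t := {a, b}))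
        omega)) a b (by simp [ha]) (by simp [hb])
      have hp := w.bypass_isPath
      have hps : ∀ x ∈ w.bypass.support, x ∉ (Z \ {a, b}) ∪ F := fun x hx =>
        hw x (w.support_bypass_subset_support hx)
      revert hp hps
      generalize w.bypass = q
      intro hp hps
      cases q with
      | nil => exact hab rfl
      | @cons _ x _ hax q =>
        rw [Walk.cons_isPath_iff] at hp
        obtain ⟨hq, haq⟩ := hp
        have hqs : ∀ y ∈ q.reverse.support, y ∉ (Z \ {a, b}) ∪ F ∧ y ≠ a := by
          intro y hy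
          rw [Walk.support_reverse, List.mem_reverse] at hy
          refine ⟨hps y (by rw [Walk.support_cons]; exact List.mem_cons_of_mem _ hy), ?_⟩
          rintro rfl
          exact haq hy
        have hqp : q.reverse.IsPath := hq.reverse
        revert hqp hqs
        generalize q.reverse = r
        intro hqs hqp
        cases r with
        | nil => exact hadj hax
        | @cons _ y _ hby r =>
          rw [Walk.cons_isPath_iff] at hqp
          have hrs : ∀ z ∈ r.support, z ∉ (F' : Set V) ∧ z ∉ (Z : Set V) := by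
            intro z hz
            obtain ⟨e1, e2⟩ := hqs z (by rw [Walk.support_cons]; exact List.mem_cons_of_mem _ hz)
            have e3 : z ≠ b := by
              rintro rfl
              exact hqp.2 hz
            rw [Finset.mem_union, Finset.mem_sdiff] at e1
            push Not at e1
            refine ⟨?_, ?_⟩
            · rw [Finset.mem_coe, hF', Finset.mem_insert, Finset.mem_insert]
              push Not
              exact ⟨e2, e3, e1.2⟩
            · intro hzZ
              have := e1.1 (by simpa using hzZ)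
              rw [Finset.mem_insert, Finset.mem_singleton] at this
              exact this.elim e2 e3
          have hx := hrs x r.end_mem_support
          have hy := hrs y r.start_mem_support
          refine hZ y ⟨hby, by simpa using hy.1⟩ (rch_cof r.reverse (fun z hz => hrs z ?_)
            (Rch.base x ⟨hax, by simpa using hx.1⟩ hx.2))
          simpa using hz
    obtain ⟨c, d, w, hcS, hdT, _, hd⟩ := hl
    have hav : ∀ i, ∀ v ∈ (w i).support, v ∉ F' := by
      intro i v hv
      have := cof_avoid (w i) (by simpa using (hcS i).2) v hv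
      simpa using this
    have key : ∀ i, Jn G ((insert a (insert b (w i).support.toFinset) : Finset V) : Set V) a b := by
      intro i
      have hmem : ∀ v ∈ (w i).support, v ∈ ((insert a (insert b (w i).support.toFinset) : Finset V) : Set V) := by
        intro v hv
        simp [hv]
      refine (Jn.of_adj (hcS i).1 (by simp) (hmem _ (w i).start_mem_support)).trans (Jn.trans ?_
        (Jn.of_adj (hdT i).1.symm (hmem _ (w i).end_mem_support) (by simp)))
      refine ⟨(w i).mapLe (cof_le _), fun z hz => hmem z ?_⟩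
      simpa [Walk.mapLe] using hz
    have hcard : (U ∩ (w 0).support.toFinset).card + (U ∩ (w 1).support.toFinset).card ≤ U.card := by
      rw [← Finset.card_union_of_disjoint]
      · exact Finset.card_le_card (Finset.union_subset Finset.inter_subset_left Finset.inter_subset_left)
      · rw [Finset.disjoint_left]
        intro v hv hv'
        rw [Finset.mem_inter, List.mem_toFinset] at hv hv'
        exact hd 0 1 (by decide) v hv.2 hv'.2
    obtain ⟨i, hi⟩ : ∃ i, 2 * (U ∩ (w i).support.toFinset).card ≤ U.card := by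
      by_contra hcon
      push Not at hcon
      have e1 := hcon 0
      have e2 := hcon 1
      omega
    refine ⟨_, key i, ?_, ?_⟩
    · intro v hv
      rw [Finset.mem_insert, Finset.mem_insert, List.mem_toFinset] at hv
      rcases hv with rfl | rfl | hv
      · exact ha
      · exact hb
      · intro h
        exact hav i v hv (by rw [hF']; simp [h])
    · have e1 : (U ∩ insert a (insert b (w i).support.toFinset)).card ≤ (U ∩ (w i).support.toFinset).card + 2 := by
        have : U ∩ insert a (insert b (w i).support.toFinset) ⊆ insert a (insert b (U ∩ (w i).support.toFinset)) := by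
          intro v hv
          simp only [Finset.mem_inter, Finset.mem_insert, List.mem_toFinset] at hv ⊢
          tauto
        refine (Finset.card_le_card this).trans ((Finset.card_insert_le _ _).trans ?_)
        have := Finset.card_insert_le b (U ∩ (w i).support.toFinset)
        omega
      have e2 := Finset.card_sdiff_add_card_inter U (insert a (insert b (w i).support.toFinset))
      omega

end

end Pool.Agent.LNK
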