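import Mathlib
import Pool.Agent.LNK.Cut

/-!
A large set of leaves such that no small set of vertices and leaves of this set separates the hubs from the terminals.
-/

set_option autoImplicit false

namespace Pool.Agent.LNK

open SimpleGraph

section

variable {V ι : Type*} [Finite V] {G : SimpleGraph V} {X A : Set V} {B : ι → Set V}

omit [Finite V] in
/-- a separation without leaves has at least `m` vertices -/
theorem empty_cost {m : ℕ} (hX : ∀ Z : Finset V, Z.card < m → ∃ x ∈ X, x ∉ Z)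
    (hc : ∀ Z : Finset V, Z.card < m → ∀ u v, u ∉ Z → v ∉ Z → Jn G ((Z : Set V)ᶜ) u v) {Z : Finset V}
    (hp : IsP G X A B Z ∅) : m ≤ Z.card := by
  by_contra hcon
  rw [not_le] at hcon
  obtain ⟨x, hx, hxZ⟩ := hX Z hcon
  obtain ⟨hp1, a, ha, haZ⟩ := hp
  obtain ⟨w, hw⟩ := hc Z hcon x a hxZ haZ
  have hY : ∀ v, v ∉ Z → v ∉ Yy B Z ∅ := by
    rintro v hv (h | ⟨j, hj, _⟩)
    · exact hv h
    · simp at hj
  exact hp1 a ha ((Rch.base x hx (hY x hxZ)).walk w fun v hv => hY v fun h => hw v hv (by simpa using h))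

omit [Finite V] in
/-- forgetting a leaf which is not attached -/
theorem erase_leaf [DecidableEq ι] {Z : Finset V} {D : Finset ι} (hp : IsP G X A B Z D) {j : ι}
    (h1 : ∀ v ∈ B j, v ∉ X) (h2 : ∀ u, Rch G X (Yy B Z D) u → ∀ b ∈ B j, ¬ G.Adj u b) :
    IsP G X A B Z (D.erase j) := by
  have key : ∀ v, Rch G X (Yy B Z (D.erase j)) v → Rch G X (Yy B Z D) v := by
    intro v hv
    induction hv with
    | base v hv hz =>
      refine Rch.base v hv ?_
      rintro (h | ⟨i, hi, h⟩)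
      · exact hz (Or.inl h)
      · by_cases hij : i = j
        · subst hij; exact h1 v h hv
        · exact hz (Or.inr ⟨i, Finset.mem_erase.2 ⟨hij, hi⟩, h⟩)
    | step u v _ hadj hz ih =>
      refine Rch.step u v ih hadj ?_
      rintro (h | ⟨i, hi, h⟩)
      · exact hz (Or.inl h)
      · by_cases hij : i = j
        · subst hij; exact h2 u ih v h hadj
        · exact hz (Or.inr ⟨i, Finset.mem_erase.2 ⟨hij, hi⟩, h⟩)
  exact ⟨fun a ha hr => hp.1 a ha (key a hr), hp.2⟩

/-- the number of reached vertices -/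
noncomputable def rk (G : SimpleGraph V) (X : Set V) (B : ι → Set V) (Z : Finset V) (D : Finset ι) : ℕ :=
  {v | Rch G X (Yy B Z D) v}.ncard

open Classical in
theorem closest [Finite ι] (h : Hyp G A B) {m c : ℕ} (hcm : c < m) (hAm : ∀ Z : Finset V, (∀ a ∈ A, a ∈ Z) → m ≤ Z.card + 1)
    (hempty : ∀ Z : Finset V, IsP G X A B Z ∅ → m ≤ Z.card) {J : Finset ι}
    (hJX : ∀ j ∈ J, ∀ v ∈ B j, v ∉ X)
    (hmin : ∀ Z D, D ⊆ J → IsP G X A B Z D → c ≤ Z.card + D.card)
    (hex : ∃ Z D, D ⊆ J ∧ IsP G X A B Z D ∧ Z.card + D.card = c) :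
    ∃ j0 ∈ J, ∀ Z D, D ⊆ J.erase j0 → IsP G X A B Z D → Z.card + D.card = c → ∃ z ∈ Z, z ∈ B j0 := by
  -- a closest pair
  have hex' : ∃ r, ∃ Z D, D ⊆ J ∧ IsP G X A B Z D ∧ Z.card + D.card = c ∧ rk G X B Z D = r := by
    obtain ⟨Z, D, h1, h2, h3⟩ := hex
    exact ⟨_, Z, D, h1, h2, h3, rfl⟩
  obtain ⟨Z, D, hD, hp, hcost, hrk⟩ := Nat.find_spec hex'
  have hleast : ∀ Z' D', D' ⊆ J → IsP G X A B Z' D' → Z'.card + D'.card = c →
      rk G X B Z D ≤ rk G X B Z' D' := by
    intro Z' D' h1 h2 h3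
    rw [hrk]
    exact Nat.find_min' hex' ⟨Z', D', h1, h2, h3, rfl⟩
  have hDne : D.Nonempty := by
    rw [Finset.nonempty_iff_ne_empty]
    rintro rfl
    have := hempty Z hp
    simp at hcost
    omega
  obtain ⟨j0, hj0⟩ := hDne
  refine ⟨j0, hD hj0, fun Z' D' hD' hp' hcost' => ?_⟩
  by_contra hunhit
  push Not at hunhit
  -- an attachment of the leaf
  obtain ⟨u, hu, w, hw, huw⟩ : ∃ u, Rch G X (Yy B Z D) u ∧ ∃ w ∈ B j0, G.Adj u w := by
    by_contra hno
    push Not at hno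
    have h1 := erase_leaf hp (hJX j0 (hD hj0)) hno
    have h2 := hmin Z (D.erase j0) ((Finset.erase_subset _ _).trans hD) h1
    rw [Finset.card_erase_of_mem hj0] at h2
    have : 0 < D.card := Finset.card_pos.2 ⟨j0, hj0⟩
    omega
  have hD'J : D' ⊆ J := hD'.trans (Finset.erase_subset _ _)
  have hj0' : j0 ∉ D' := fun hx => by simpa using hD' hx
  set Zi := Zin G X B Z Z' D D' with hZi
  set Di := Din B Z Z' D D' with hDi
  set Zo := Zout G X B Z Z' D D' with hZo
  have hcosts : Zi.card + Di.card + (Zo.card + (D ∪ D').card) ≤ (Z.card + D.card) + (Z'.card + D'.card) :=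
    cost_le h
  have hDiJ : Di ⊆ J := by
    refine (Finset.filter_subset _ _).trans ?_
    exact Finset.union_subset hD hD'J
  have hDoJ : D ∪ D' ⊆ J := Finset.union_subset hD hD'J
  have hin1 : ∀ a ∈ A, ¬ Rch G X (Yy B Zi Di) a := fun a ha hr => hp.1 a ha (rch_in h hp hp' hr).1
  have hout1 : ∀ a ∈ A, ¬ Rch G X (Yy B Zo (D ∪ D')) a := by
    intro a ha hr
    rcases rch_out hr with h1 | h1
    · exact hp.1 a ha h1
    · exact hp'.1 a ha h1
  -- the hubs are not all in the inner set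
  have hin2 : ∃ a ∈ A, a ∉ Zi := by
    by_contra hno
    push Not at hno
    obtain ⟨a, ha, haZ⟩ := hp.2
    have h1 := hno a ha
    rw [hZi] at h1
    unfold Zin at h1
    rw [Finset.mem_filter] at h1
    rcases h1.2.2.1 with h2 | h2 | ⟨j, _, h2⟩
    · exact hp.1 a ha h2
    · exact haZ h2
    · exact h.hub j a ha h2
  have hpin : IsP G X A B Zi Di := ⟨hin1, hin2⟩
  have hcin := hmin Zi Di hDiJ hpin
  -- the outer pair
  have hcout : c ≤ Zo.card + (D ∪ D').card := by
    by_cases hno : ∃ a ∈ A, a ∉ Zo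
    · exact hmin Zo (D ∪ D') hDoJ ⟨hout1, hno⟩
    · push Not at hno
      have h1 := hAm Zo hno
      have h2 : 0 < (D ∪ D').card := Finset.card_pos.2 ⟨j0, Finset.mem_union_left _ hj0⟩
      omega
  have hceq : Zi.card + Di.card = c := by omega
  have hle := hleast Zi Di hDiJ hpin hceq
  -- the reached sets are equal
  have hsub : {v | Rch G X (Yy B Zi Di) v} ⊆ {v | Rch G X (Yy B Z D) v} :=
    fun v hv => (rch_in h hp hp' hv).1
  have heq : {v | Rch G X (Yy B Zi Di) v} = {v | Rch G X (Yy B Z D) v} := by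
    refine Set.eq_of_subset_of_ncard_le hsub ?_ (Set.toFinite _)
    exact hle
  have hu' : Rch G X (Yy B Zi Di) u := by
    have : u ∈ {v | Rch G X (Yy B Z D) v} := hu
    rw [← heq] at this
    exact this
  have hwY : w ∉ Yy B Zi Di := by
    rintro (h1 | ⟨i, hi, h1⟩)
    · rw [hZi] at h1
      unfold Zin at h1
      rw [Finset.mem_filter] at h1
      exact h1.2.1 ⟨j0, Finset.mem_union_left _ hj0, hw⟩
    · by_cases hij : i = j0
      · subst hij
        rw [hDi] at hi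
        unfold Din at hi
        rw [Finset.mem_filter] at hi
        rcases hi.2.2 with h2 | ⟨z, hz, h2⟩
        · exact hj0' h2
        · exact hunhit z hz h2
      · exact h.disj i j0 hij w h1 hw
  have hw' := (rch_in h hp hp' (Rch.step u w hu' huw hwY)).1
  exact hw'.not_mem (Or.inr ⟨j0, hj0, hw⟩)

open Classical in
theorem level [Finite ι] (h : Hyp G A B) {m c : ℕ} (hcm : c < m) (hAm : ∀ Z : Finset V, (∀ a ∈ A, a ∈ Z) → m ≤ Z.card + 1)
    (hempty : ∀ Z : Finset V, IsP G X A B Z ∅ → m ≤ Z.card) {J : Finset ι}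
    (hJX : ∀ j ∈ J, ∀ v ∈ B j, v ∉ X)
    (hmin : ∀ Z D, D ⊆ J → IsP G X A B Z D → c ≤ Z.card + D.card) :
    ∃ J' ⊆ J, J.card ≤ J'.card + c ∧ ∀ Z D, D ⊆ J' → IsP G X A B Z D → c + 1 ≤ Z.card + D.card := by
  by_contra hcon
  push Not at hcon
  have hex : ∀ J' ⊆ J, J.card ≤ J'.card + c → ∃ Z D, D ⊆ J' ∧ IsP G X A B Z D ∧ Z.card + D.card = c := by
    intro J' h1 h2
    obtain ⟨Z, D, h3, h4, h5⟩ := hcon J' h1 h2
    have := hmin Z D (h3.trans h1) h4
    exact ⟨Z, D, h3, h4, by omega⟩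
  have key : ∀ e, e ≤ c → ∃ J' ⊆ J, ∃ E : Finset ι, E.card = e ∧ Disjoint E J' ∧ J.card ≤ J'.card + e ∧
      ∀ Z D, D ⊆ J' → IsP G X A B Z D → Z.card + D.card = c → ∀ j ∈ E, ∃ z ∈ Z, z ∈ B j := by
    intro e
    induction e with
    | zero =>
      intro _
      exact ⟨J, Finset.Subset.refl _, ∅, rfl, Finset.disjoint_empty_left _, le_refl _, by simp⟩
    | succ e ih =>
      intro he
      obtain ⟨J', h1, E, h2, h3, h4, h5⟩ := ih (by omega)
      obtain ⟨j0, hj0, h6⟩ := closest h hcm hAm hempty (fun j hj => hJX j (h1 hj))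
        (fun Z D hD hp => hmin Z D (hD.trans h1) hp) (hex J' h1 (by omega))
      have hj0E : j0 ∉ E := fun hx => Finset.disjoint_left.1 h3 hx hj0
      refine ⟨J'.erase j0, (Finset.erase_subset _ _).trans h1, insert j0 E, ?_, ?_, ?_, ?_⟩
      · rw [Finset.card_insert_of_notMem hj0E, h2]
      · rw [Finset.disjoint_insert_left]
        exact ⟨by simp, h3.mono_right (Finset.erase_subset _ _)⟩
      · rw [Finset.card_erase_of_mem hj0]
        have : 0 < J'.card := Finset.card_pos.2 ⟨j0, hj0⟩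
        omega
      · intro Z D hD hp hc j hj
        rw [Finset.mem_insert] at hj
        rcases hj with rfl | hj
        · exact h6 Z D hD hp hc
        · exact h5 Z D (hD.trans (Finset.erase_subset _ _)) hp hc j hj
  obtain ⟨J', h1, E, h2, h3, h4, h5⟩ := key c (le_refl c)
  obtain ⟨Z, D, hD, hp, hc⟩ := hex J' h1 h4
  have h6 := (card_hit h E Z (h5 Z D hD hp hc)).trans (Finset.card_le_card (Finset.filter_subset _ _))
  have h7 : D = ∅ := by
    rw [← Finset.card_eq_zero]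
    omega
  subst h7
  have := hempty Z hp
  simp at hc
  omega

open Classical in
theorem levels [Finite ι] (h : Hyp G A B) {m : ℕ} (hAm : ∀ Z : Finset V, (∀ a ∈ A, a ∈ Z) → m ≤ Z.card + 1)
    (hempty : ∀ Z : Finset V, IsP G X A B Z ∅ → m ≤ Z.card) {J : Finset ι}
    (hJX : ∀ j ∈ J, ∀ v ∈ B j, v ∉ X) (c : ℕ) (hcm : c ≤ m) :
    ∃ J' ⊆ J, J.card ≤ J'.card + ∑ i ∈ Finset.range c, i ∧
      ∀ Z D, D ⊆ J' → IsP G X A B Z D → c ≤ Z.card + D.card := by
  induction c with
  | zero => exact ⟨J, Finset.Subset.refl _, by simp, fun _ _ _ _ => Nat.zero_le _⟩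
  | succ c ih =>
    obtain ⟨J1, h1, h2, h3⟩ := ih (by omega)
    obtain ⟨J2, h4, h5, h6⟩ := level h (by omega) hAm hempty (fun j hj => hJX j (h1 hj)) h3
    refine ⟨J2, h4.trans h1, ?_, h6⟩
    rw [Finset.sum_range_succ]
    omega

end

end Pool.Agent.LNK
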