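import Mathlib
import Pool.Agent.LNK.Lvl

/-!
Routing the terminals to hubs and leaves.
-/

set_option autoImplicit false

namespace Pool.Agent.LNK

open SimpleGraph

section

variable {V ι : Type*} {G : SimpleGraph V} {X A : Set V} {B : ι → Set V} {J : Finset ι}

/-- the graph in which the leaves of `J` are contracted and not passed through -/
def Ax (G : SimpleGraph V) (B : ι → Set V) (J : Finset ι) : SimpleGraph (V ⊕ ι) where
  Adj x y := match x, y with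
    | Sum.inl u, Sum.inl v => G.Adj u v ∧ (∀ j ∈ J, u ∉ B j) ∧ ∀ j ∈ J, v ∉ B j
    | Sum.inl u, Sum.inr j => j ∈ J ∧ (∀ i ∈ J, u ∉ B i) ∧ ∃ b ∈ B j, G.Adj u b
    | Sum.inr j, Sum.inl u => j ∈ J ∧ (∀ i ∈ J, u ∉ B i) ∧ ∃ b ∈ B j, G.Adj u b
    | Sum.inr _, Sum.inr _ => False
  symm := ⟨by
    rintro (u | i) (v | j) h
    · exact ⟨h.1.symm, h.2.2, h.2.1⟩
    · exact h
    · exact h
    · exact h⟩
  loopless := ⟨by
    rintro (u | i) h
    · exact G.loopless.irrefl u h.1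
    · exact h⟩

theorem ax_ll {u v : V} : (Ax G B J).Adj (Sum.inl u) (Sum.inl v) ↔
    G.Adj u v ∧ (∀ j ∈ J, u ∉ B j) ∧ ∀ j ∈ J, v ∉ B j := Iff.rfl

theorem ax_lr {u : V} {j : ι} : (Ax G B J).Adj (Sum.inl u) (Sum.inr j) ↔
    j ∈ J ∧ (∀ i ∈ J, u ∉ B i) ∧ ∃ b ∈ B j, G.Adj u b := Iff.rfl

/-- the targets -/
def Tg (A : Set V) (J : Finset ι) : Set (V ⊕ ι) := {x | (∃ a ∈ A, x = Sum.inl a) ∨ ∃ j ∈ J, x = Sum.inr j}

/-- the sources -/
def Sg (ι : Type*) (X : Set V) : Set (V ⊕ ι) := {x | ∃ v ∈ X, x = Sum.inl v}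

theorem ax_reach {Z : Finset V} {D : Finset ι} {Z0 : Set (V ⊕ ι)} (hZ0 : ∀ v, Sum.inl v ∈ Z0 → v ∈ Z)
    (hD0 : ∀ j ∈ J, Sum.inr j ∈ Z0 → j ∈ D) (hX : ∀ v ∈ X, ∀ j ∈ J, v ∉ B j) {v : V}
    (hv : Rch G X (Yy B Z D) v) :
    (Rch (Ax G B J) (Sg ι X) Z0 (Sum.inl v) ∧ ∀ j ∈ J, v ∉ B j) ∨
      ∃ j ∈ J, Rch (Ax G B J) (Sg ι X) Z0 (Sum.inr j) := by
  induction hv with
  | base v hv hz =>
    exact Or.inl ⟨Rch.base _ ⟨v, hv, rfl⟩ fun h => hz (Or.inl (hZ0 v h)), hX v hv⟩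
  | step u v _ hadj hz ih =>
    rcases ih with ⟨h1, h2⟩ | ih
    · by_cases hB : ∃ j ∈ J, v ∈ B j
      · obtain ⟨j, hj, hvj⟩ := hB
        refine Or.inr ⟨j, hj, Rch.step _ _ h1 (ax_lr.2 ⟨hj, h2, v, hvj, hadj⟩) ?_⟩
        intro h3
        exact hz (Or.inr ⟨j, hD0 j hj h3, hvj⟩)
      · push Not at hB
        exact Or.inl ⟨Rch.step _ _ h1 (ax_ll.2 ⟨hadj, h2, hB⟩) fun h => hz (Or.inl (hZ0 v h)), hB⟩
    · exact Or.inr ih

open Classical in
/-- no small separator in the auxiliary graph -/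
theorem ax_sep (h : Hyp G A B) {m : ℕ} (hA : A.ncard + 1 = m) (hAf : A.Finite)
    (hXm : ∀ Z : Finset V, Z.card < m → ∃ x ∈ X, x ∉ Z)
    (hc : ∀ Z : Finset V, Z.card < m → ∀ u v, u ∉ Z → v ∉ Z → Jn G ((Z : Set V)ᶜ) u v)
    (hne : ∀ j, (B j).Nonempty) (hJ : J.Nonempty) (hX : ∀ v ∈ X, ∀ j ∈ J, v ∉ B j)
    (hmin : ∀ Z D, D ⊆ J → IsP G X A B Z D → m ≤ Z.card + D.card)
    (Z0 : Finset (V ⊕ ι)) (hs : Sep (Ax G B J) (Sg ι X) (Tg A J) Z0) : m ≤ Z0.card := by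
  by_contra hcon
  rw [not_le] at hcon
  set Z : Finset V := Z0.toLeft with hZ
  set D : Finset ι := Z0.toRight ∩ J with hD
  have hcard : Z.card + D.card ≤ Z0.card := by
    rw [← Finset.card_toLeft_add_card_toRight (u := Z0)]
    exact Nat.add_le_add_left (Finset.card_le_card Finset.inter_subset_left) _
  have hZ0 : ∀ v, Sum.inl v ∈ (Z0 : Set (V ⊕ ι)) → v ∈ Z := by
    intro v hv
    rw [hZ, Finset.mem_toLeft]
    exact hv
  have hD0 : ∀ j ∈ J, Sum.inr j ∈ (Z0 : Set (V ⊕ ι)) → j ∈ D := by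
    intro j hj hv
    rw [hD, Finset.mem_inter, Finset.mem_toRight]
    exact ⟨hv, hj⟩
  have hDJ : D ⊆ J := Finset.inter_subset_right
  have hreach : ∀ v, Rch G X (Yy B Z D) v →
      Rch (Ax G B J) (Sg ι X) Z0 (Sum.inl v) ∧ ∀ j ∈ J, v ∉ B j := by
    intro v hv
    rcases ax_reach hZ0 hD0 hX hv with h1 | ⟨j, hj, h1⟩
    · exact h1
    · exact absurd h1 (hs _ (Or.inr ⟨j, hj, rfl⟩))
  by_cases hAZ : ∀ a ∈ A, a ∈ Z
  · -- the hubs are all in Z
    have h1 : hAf.toFinset ⊆ Z := fun a ha => hAZ a ((Set.Finite.mem_toFinset _).1 ha)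
    have h2 : hAf.toFinset.card + 1 = m := by
      rw [← Set.ncard_eq_toFinset_card A hAf]
      exact hA
    have h3 := Finset.card_le_card h1
    have h4 : D = ∅ := by
      rw [← Finset.card_eq_zero]
      omega
    have h5 : Z = hAf.toFinset := by
      symm
      apply Finset.eq_of_subset_of_card_le h1
      omega
    obtain ⟨x, hx, hxZ⟩ := hXm Z (by omega)
    obtain ⟨j, hj⟩ := hJ
    obtain ⟨b, hb⟩ := hne j
    have hbZ : b ∉ Z := by
      rw [h5, Set.Finite.mem_toFinset]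
      intro hbA
      exact h.hub j b hbA hb
    obtain ⟨w, hw⟩ := hc Z (by omega) x b hxZ hbZ
    have hY : ∀ v, v ∉ Z → v ∉ Yy B Z D := by
      rintro v hv (h6 | ⟨i, hi, _⟩)
      · exact hv h6
      · rw [h4] at hi
        simp at hi
    have h6 : Rch G X (Yy B Z D) b :=
      (Rch.base x hx (hY x hxZ)).walk w fun v hv => hY v fun h => hw v hv (by simpa using h)
    exact (hreach b h6).2 j hj hb
  · push Not at hAZ
    have hp : IsP G X A B Z D := by
      refine ⟨fun a ha hr => ?_, hAZ⟩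
      exact hs _ (Or.inl ⟨a, ha, rfl⟩) (hreach a hr).1
    have := hmin Z D hDJ hp
    omega

/-- the part of a walk before the first target -/
theorem trunc (h : Hyp G A B) {x t : V ⊕ ι} (w : (Ax G B J).Walk x t) (ht : t ∈ Tg A J) :
    ∀ u, x = Sum.inl u → ∃ P : Set V, u ∈ P ∧ (∀ p ∈ P, Sum.inl p ∈ w.support) ∧ (∀ p ∈ P, Jn G P u p) ∧
      (∀ p ∈ P, ∀ j ∈ J, p ∉ B j) ∧
      ((∃ a ∈ A, a ∈ P ∧ ∀ a' ∈ A, a' ∈ P → a' = a) ∨
        ((∀ a ∈ A, a ∉ P) ∧ ∃ j ∈ J, Sum.inr j ∈ w.support ∧ ∃ p ∈ P, ∃ b ∈ B j, G.Adj p b)) := by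
  have single : ∀ {y : V ⊕ ι} (w' : (Ax G B J).Walk y t) (u : V), y = Sum.inl u → u ∈ A →
      ∃ P : Set V, u ∈ P ∧ (∀ p ∈ P, Sum.inl p ∈ w'.support) ∧ (∀ p ∈ P, Jn G P u p) ∧
      (∀ p ∈ P, ∀ j ∈ J, p ∉ B j) ∧
      ((∃ a ∈ A, a ∈ P ∧ ∀ a' ∈ A, a' ∈ P → a' = a) ∨
        ((∀ a ∈ A, a ∉ P) ∧ ∃ j ∈ J, Sum.inr j ∈ w'.support ∧ ∃ p ∈ P, ∃ b ∈ B j, G.Adj p b)) := by
    rintro y w' u rfl hu
    refine ⟨{u}, rfl, ?_, ?_, ?_, Or.inl ⟨u, hu, rfl, fun a' _ ha' => ha'⟩⟩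
    · rintro p rfl
      exact w'.start_mem_support
    · rintro p rfl
      exact Jn.refl rfl
    · rintro p rfl j _
      exact h.hub j p hu
  induction w with
  | nil =>
    rintro u rfl
    rcases ht with ⟨a, ha, hua⟩ | ⟨j, _, hj⟩
    · have hua : u = a := Sum.inl_injective hua
      subst hua
      exact single Walk.nil u rfl ha
    · simp at hj
  | @cons x y t hadj w ih =>
    rintro u rfl
    by_cases hu : u ∈ A
    · exact single (Walk.cons hadj w) u rfl hu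
    rcases y with v | j
    · obtain ⟨P, h1, h2, h3, h4, h5⟩ := ih ht (fun w' u h6 h7 => by
          rcases h6 with rfl
          refine ⟨{u}, rfl, ?_, ?_, ?_, Or.inl ⟨u, h7, rfl, fun a' _ ha' => ha'⟩⟩
          · rintro p rfl
            exact w'.start_mem_support
          · rintro p rfl
            exact Jn.refl rfl
          · rintro p rfl j _
            exact h.hub j p h7) v rfl
      rw [ax_ll] at hadj
      refine ⟨insert u P, Set.mem_insert _ _, ?_, ?_, ?_, ?_⟩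
      · rintro p (rfl | hp)
        · exact Walk.start_mem_support _
        · rw [Walk.support_cons]
          exact List.mem_cons_of_mem _ (h2 p hp)
      · rintro p (rfl | hp)
        · exact Jn.refl (Set.mem_insert _ _)
        · exact (Jn.of_adj hadj.1 (Set.mem_insert _ _) (Set.mem_insert_of_mem _ h1)).trans
            ((h3 p hp).mono (Set.subset_insert _ _))
      · rintro p (rfl | hp)
        · exact hadj.2.1
        · exact h4 p hp
      · rcases h5 with ⟨a, ha, haP, huniq⟩ | ⟨h6, j, hj, hjw, p, hp, hpb⟩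
        · refine Or.inl ⟨a, ha, Set.mem_insert_of_mem _ haP, ?_⟩
          rintro a' ha' (rfl | hp)
          · exact absurd ha' hu
          · exact huniq a' ha' hp
        · refine Or.inr ⟨?_, j, hj, ?_, p, Set.mem_insert_of_mem _ hp, hpb⟩
          · rintro a' ha' (rfl | hp)
            · exact absurd ha' hu
            · exact h6 a' ha' hp
          · rw [Walk.support_cons]
            exact List.mem_cons_of_mem _ hjw
    · rw [ax_lr] at hadj
      refine ⟨{u}, rfl, ?_, ?_, ?_, Or.inr ⟨?_, j, hadj.1, ?_, u, rfl, hadj.2.2⟩⟩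
      · rintro p rfl
        exact Walk.start_mem_support _
      · rintro p rfl
        exact Jn.refl rfl
      · rintro p rfl
        exact hadj.2.1
      · rintro a ha rfl
        exact hu ha
      · rw [Walk.support_cons]
        exact List.mem_cons_of_mem _ w.start_mem_support

end

end Pool.Agent.LNK
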