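import Mathlib
import Pool.Agent.LNK.Rte

/-!
Joining the pairs of terminals through hubs and leaves.
-/

set_option autoImplicit false

namespace Pool.Agent.LNK

open SimpleGraph

section

variable {V ι : Type*} {G : SimpleGraph V} {A : Set V} {B : ι → Set V}

open Classical in
theorem assemble {k : ℕ} (h : Hyp G A B) (s t : Fin k → V) (K : Fin k ⊕ Fin k → Set V)
    (f : Fin k → ι) (y0 : Fin k ⊕ Fin k) (j0 : ι)
    (K2 : ∀ y, ∀ v ∈ K y, Jn G (K y) (Sum.elim s t y) v)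
    (K3 : ∀ y y', y ≠ y' → ∀ v ∈ K y, v ∉ K y') (K4 : ∀ y, y ≠ y0 → ∃ a ∈ A, a ∈ K y)
    (K5 : ∀ v ∈ B j0, v ∈ K y0) (hf : Function.Injective f) (K6 : ∀ i y, ∀ v ∈ K y, v ∉ B (f i)) :
    ∃ p : ∀ i, G.Walk (s i) (t i), (∀ i, (p i).IsPath) ∧
      ∀ i j, i ≠ j → ∀ v, v ∈ (p i).support → v ∉ (p j).support := by
  set C : Fin k → Set V := fun i => K (Sum.inl i) ∪ K (Sum.inr i) ∪ B (f i) with hC
  have hjn : ∀ i, Jn G (C i) (s i) (t i) := by
    intro i
    have c1 : K (Sum.inl i) ⊆ C i := fun v hv => Or.inl (Or.inl hv)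
    have c2 : K (Sum.inr i) ⊆ C i := fun v hv => Or.inl (Or.inr hv)
    have c3 : B (f i) ⊆ C i := fun v hv => Or.inr hv
    have hs := K2 (Sum.inl i)
    have ht := K2 (Sum.inr i)
    simp only [Sum.elim_inl, Sum.elim_inr] at hs ht
    by_cases h1 : Sum.inl i = y0
    · have h2 : Sum.inr i ≠ y0 := by rw [← h1]; simp
      obtain ⟨a, haA, haK⟩ := K4 _ h2
      obtain ⟨b, hb, hab⟩ := h.adj j0 a haA
      have hbK : b ∈ K (Sum.inl i) := by rw [h1]; exact K5 b hb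
      exact ((hs b hbK).mono c1).trans ((Jn.of_adj hab.symm (c1 hbK) (c2 haK)).trans ((ht a haK).mono c2).symm)
    · by_cases h2 : Sum.inr i = y0
      · obtain ⟨a, haA, haK⟩ := K4 _ h1
        obtain ⟨b, hb, hab⟩ := h.adj j0 a haA
        have hbK : b ∈ K (Sum.inr i) := by rw [h2]; exact K5 b hb
        exact ((hs a haK).mono c1).trans ((Jn.of_adj hab (c1 haK) (c2 hbK)).trans ((ht b hbK).mono c2).symm)
      · obtain ⟨a, haA, haK⟩ := K4 _ h1
        obtain ⟨a', haA', haK'⟩ := K4 _ h2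
        obtain ⟨b, hb, hab⟩ := h.adj (f i) a haA
        obtain ⟨b', hb', hab'⟩ := h.adj (f i) a' haA'
        exact ((hs a haK).mono c1).trans ((Jn.of_adj hab (c1 haK) (c3 hb)).trans
          (((h.conn (f i) b hb b' hb').mono c3).trans
            ((Jn.of_adj hab'.symm (c3 hb') (c2 haK')).trans ((ht a' haK').mono c2).symm)))
  have hCd : ∀ i j, i ≠ j → ∀ v ∈ C i, v ∉ C j := by
    intro i j hij v hv hv'
    rcases hv with (hv | hv) | hv <;> rcases hv' with (hv' | hv') | hv'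
    · exact K3 _ _ (fun h => hij (Sum.inl_injective h)) v hv hv'
    · exact K3 _ _ (by simp) v hv hv'
    · exact K6 j _ v hv hv'
    · exact K3 _ _ (by simp) v hv hv'
    · exact K3 _ _ (fun h => hij (Sum.inr_injective h)) v hv hv'
    · exact K6 j _ v hv hv'
    · exact K6 i _ v hv' hv
    · exact K6 i _ v hv' hv
    · exact h.disj _ _ (fun h => hij (hf h)) v hv hv'
  choose w hw using hjn
  refine ⟨fun i => (w i).bypass, fun i => (w i).bypass_isPath, fun i j hij v hv hv' => ?_⟩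
  exact hCd i j hij v (hw i v ((w i).support_bypass_subset_support hv))
    (hw j v ((w j).support_bypass_subset_support hv'))

/-- one terminal with its part of the routing -/
structure Rt (G : SimpleGraph V) (A : Set V) (B : ι → Set V) (J : Finset ι) (u : V) (P : Set V) : Prop where
  mem : u ∈ P
  conn : ∀ p ∈ P, Jn G P u p
  leaf : ∀ p ∈ P, ∀ j ∈ J, p ∉ B j

open Classical in
theorem assemble2 {k : ℕ} (h : Hyp G A B) (hAf : A.Finite) (hA : A.ncard + 1 = 2 * k)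
    {J : Finset ι} (hJ : 3 * k ≤ J.card) (s t : Fin k → V)
    (P : Fin k ⊕ Fin k → Set V) (hP : ∀ y, Rt G A B J (Sum.elim s t y) (P y))
    (hPd : ∀ y y', y ≠ y' → ∀ v ∈ P y, v ∉ P y') (L : Finset (Fin k ⊕ Fin k)) (jl : Fin k ⊕ Fin k → ι)
    (hhub : ∀ y, y ∉ L → ∃ a ∈ A, a ∈ P y ∧ ∀ a' ∈ A, a' ∈ P y → a' = a)
    (hL : ∀ y ∈ L, (∀ a ∈ A, a ∉ P y) ∧ jl y ∈ J ∧ ∃ p ∈ P y, ∃ b ∈ B (jl y), G.Adj p b)
    (hjl : ∀ y ∈ L, ∀ y' ∈ L, y ≠ y' → jl y ≠ jl y') :
    ∃ p : ∀ i, G.Walk (s i) (t i), (∀ i, (p i).IsPath) ∧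
      ∀ i j, i ≠ j → ∀ v, v ∈ (p i).support → v ∉ (p j).support := by
  set U : Finset V := hAf.toFinset.filter fun a => ∀ y, a ∉ P y with hU
  have hUm : ∀ a ∈ U, a ∈ A ∧ ∀ y, a ∉ P y := by
    intro a ha
    rw [hU, Finset.mem_filter, Set.Finite.mem_toFinset] at ha
    exact ha
  -- number of unoccupied hubs
  have hcard : L.card ≤ U.card + 1 ∧ 1 ≤ L.card := by
    have h1 : ∀ y : {y // y ∉ L}, ∃ a, a ∈ A ∧ a ∈ P y.1 ∧ ∀ a' ∈ A, a' ∈ P y.1 → a' = a := by
      intro y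
      obtain ⟨a, h1, h2, h3⟩ := hhub y.1 y.2
      exact ⟨a, h1, h2, h3⟩
    choose hb h1 h2 h3 using h1
    have hinj : Function.Injective hb := by
      intro y y' hyy
      by_contra hne
      have hne' : y.1 ≠ y'.1 := fun h => hne (Subtype.ext h)
      exact hPd y.1 y'.1 hne' (hb y) (h2 y) (hyy ▸ h2 y')
    have h4 : (hAf.toFinset.filter fun a => ¬ ∀ y, a ∉ P y) = Finset.univ.image hb := by
      ext a
      rw [Finset.mem_filter, Finset.mem_image, Set.Finite.mem_toFinset]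
      constructor
      · rintro ⟨h5, h6⟩
        push Not at h6
        obtain ⟨y, hy⟩ := h6
        have hyL : y ∉ L := fun hyL => (hL y hyL).1 a h5 hy
        exact ⟨⟨y, hyL⟩, Finset.mem_univ _, (h3 ⟨y, hyL⟩ a h5 hy).symm⟩
      · rintro ⟨y, _, rfl⟩
        exact ⟨h1 y, fun h => h y.1 (h2 y)⟩
    have h5 := Finset.card_filter_add_card_filter_not (s := hAf.toFinset) (fun a => ∀ y, a ∉ P y)
    rw [h4, Finset.card_image_of_injective _ hinj, Finset.card_univ, ← hU,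
      ← Set.ncard_eq_toFinset_card A hAf] at h5
    have h6 : Fintype.card {y // y ∉ L} = 2 * k - L.card := by
      rw [Fintype.card_subtype_compl, Fintype.card_sum, Fintype.card_fin]
      have : Fintype.card {y // y ∈ L} = L.card := by simp
      rw [this]
      omega
    have h7 : L.card ≤ 2 * k := by
      have := Finset.card_le_univ L
      rw [Fintype.card_sum, Fintype.card_fin] at this
      omega
    omega
  obtain ⟨hc1, hc2⟩ := hcard
  obtain ⟨y0, hy0⟩ := Finset.card_pos.1 hc2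
  -- new hubs
  obtain ⟨g⟩ : Nonempty ({y // y ∈ L.erase y0} ↪ {a // a ∈ U}) := by
    apply Function.Embedding.nonempty_of_card_le
    rw [Fintype.card_coe, Fintype.card_coe, Finset.card_erase_of_mem hy0]
    omega
  have hgA : ∀ y, (g y).1 ∈ A ∧ ∀ y', (g y).1 ∉ P y' :=
    fun y => hUm _ (g y).2
  -- free leaves
  obtain ⟨f⟩ : Nonempty (Fin k ↪ {j // j ∈ J \ L.image jl}) := by
    apply Function.Embedding.nonempty_of_card_le
    rw [Fintype.card_coe, Fintype.card_fin]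
    have h1 := Finset.le_card_sdiff (L.image jl) J
    have h2 : (L.image jl).card ≤ 2 * k := by
      refine Finset.card_image_le.trans ?_
      have := Finset.card_le_univ L
      rw [Fintype.card_sum, Fintype.card_fin] at this
      omega
    omega
  have hf : ∀ i, (f i).1 ∈ J ∧ ∀ y ∈ L, jl y ≠ (f i).1 := by
    intro i
    have := (f i).2
    rw [Finset.mem_sdiff, Finset.mem_image] at this
    push Not at this
    exact this
  set K : Fin k ⊕ Fin k → Set V := fun y => P y ∪ {v | y ∈ L ∧ v ∈ B (jl y)} ∪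
    {v | ∃ hy : y ∈ L.erase y0, v = (g ⟨y, hy⟩).1} with hK
  have cP : ∀ y, P y ⊆ K y := fun y v hv => Or.inl (Or.inl hv)
  have cB : ∀ y ∈ L, B (jl y) ⊆ K y := fun y hy v hv => Or.inl (Or.inr ⟨hy, hv⟩)
  have hsB : ∀ y ∈ L, ∀ v ∈ B (jl y), Jn G (K y) (Sum.elim s t y) v := by
    intro y hy v hv
    obtain ⟨_, _, p, hp, b, hb, hpb⟩ := hL y hy
    exact (((hP y).conn p hp).mono (cP y)).trans ((Jn.of_adj hpb (cP y hp) (cB y hy hb)).trans
      ((h.conn _ b hb v hv).mono (cB y hy)))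
  refine assemble h s t K (fun i => (f i).1) y0 (jl y0) ?_ ?_ ?_ ?_ ?_ ?_
  · rintro y v ((hv | ⟨hy, hv⟩) | ⟨hy, rfl⟩)
    · exact ((hP y).conn v hv).mono (cP y)
    · exact hsB y hy v hv
    · have hyL : y ∈ L := Finset.mem_of_mem_erase hy
      obtain ⟨b, hb, hab⟩ := h.adj (jl y) (g ⟨y, hy⟩).1 (hgA ⟨y, hy⟩).1
      exact (hsB y hyL b hb).trans (Jn.of_adj hab.symm (cB y hyL hb) (Or.inr ⟨hy, rfl⟩))
  · rintro y y' hyy v ((hv | ⟨hy, hv⟩) | ⟨hy, rfl⟩) ((hv' | ⟨hy', hv'⟩) | ⟨hy', hv'⟩)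
    · exact hPd y y' hyy v hv hv'
    · exact (hP y).leaf v hv _ (hL y' hy').2.1 hv'
    · subst hv'
      exact (hgA _).2 y hv
    · exact (hP y').leaf v hv' _ (hL y hy).2.1 hv
    · exact h.disj _ _ (hjl y hy y' hy' hyy) v hv hv'
    · subst hv'
      exact h.hub _ _ (hgA _).1 hv
    · exact (hgA _).2 y' hv'
    · exact h.hub _ _ (hgA _).1 hv'
    · have h1 := g.injective (Subtype.ext hv')
      exact hyy (congrArg Subtype.val h1)
  · intro y hy
    by_cases hyL : y ∈ L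
    · have hy' : y ∈ L.erase y0 := Finset.mem_erase.2 ⟨hy, hyL⟩
      exact ⟨(g ⟨y, hy'⟩).1, (hgA _).1, Or.inr ⟨hy', rfl⟩⟩
    · obtain ⟨a, h1, h2, _⟩ := hhub y hyL
      exact ⟨a, h1, cP y h2⟩
  · exact cB y0 hy0
  · intro i i' hii
    exact f.injective (Subtype.ext hii)
  · rintro i y v ((hv | ⟨hy, hv⟩) | ⟨hy, rfl⟩) hv'
    · exact (hP y).leaf v hv _ (hf i).1 hv'
    · exact h.disj _ _ ((hf i).2 y hy) v hv hv'
    · exact h.hub _ _ (hgA _).1 hv'

end

end Pool.Agent.LNK
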