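import Mathlib
import Pool.Agent.LNK.Asm

/-!
A 2k-connected graph with 2k - 1 hubs and many leaves is k-linked.
-/

set_option autoImplicit false

namespace Pool.Agent.LNK

open SimpleGraph

open Classical in
theorem rooted {k : ℕ} {V ι : Type*} [Finite V] [Fintype ι] (hk : 1 ≤ k) (hN : 2 * k ^ 2 + 4 * k ≤ Fintype.card ι)
    {G : SimpleGraph V}
    (hc : ∀ Z : Finset V, Z.card < 2 * k → ∀ u v, u ∉ Z → v ∉ Z → Jn G ((Z : Set V)ᶜ) u v)
    {A : Set V} {B : ι → Set V} (hA : A.ncard + 1 = 2 * k) (h : Hyp G A B) (hne : ∀ j, (B j).Nonempty)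
    (s t : Fin k → V) (hst : Function.Injective (Sum.elim s t)) :
    ∃ p : ∀ i, G.Walk (s i) (t i), (∀ i, (p i).IsPath) ∧
      ∀ i j, i ≠ j → ∀ v, v ∈ (p i).support → v ∉ (p j).support := by
  have hAf : A.Finite := Set.toFinite _
  set X : Set V := Set.range (Sum.elim s t) with hX
  set XF : Finset V := Finset.univ.image (Sum.elim s t) with hXF
  have hXFc : XF.card = 2 * k := by
    rw [hXF, Finset.card_image_of_injective _ hst, Finset.card_univ, Fintype.card_sum, Fintype.card_fin]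
    ring
  have hXm : ∀ Z : Finset V, Z.card < 2 * k → ∃ x ∈ X, x ∉ Z := by
    intro Z hZ
    by_contra hcon
    push Not at hcon
    have h1 : XF ⊆ Z := by
      intro x hx
      rw [hXF, Finset.mem_image] at hx
      obtain ⟨y, _, rfl⟩ := hx
      exact hcon _ ⟨y, rfl⟩
    have := Finset.card_le_card h1
    omega
  have hAm : ∀ Z : Finset V, (∀ a ∈ A, a ∈ Z) → 2 * k ≤ Z.card + 1 := by
    intro Z hZ
    have h1 : hAf.toFinset ⊆ Z := fun a ha => hZ a ((Set.Finite.mem_toFinset _).1 ha)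
    have h2 := Finset.card_le_card h1
    rw [← Set.ncard_eq_toFinset_card A hAf] at h2
    omega
  -- leaves without terminals
  set J0 : Finset ι := Finset.univ.filter (fun j => ∀ v ∈ B j, v ∉ X) with hJ0
  have hJ0c : Fintype.card ι ≤ J0.card + 2 * k := by
    have h1 : J0.card + (Finset.univ.filter (fun j => ¬ ∀ v ∈ B j, v ∉ X)).card =
        (Finset.univ : Finset ι).card := Finset.card_filter_add_card_filter_not _
    have h2 : (Finset.univ.filter (fun j => ¬ ∀ v ∈ B j, v ∉ X)).card ≤ XF.card := by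
      refine (card_hit h _ XF ?_).trans (Finset.card_le_card (Finset.filter_subset _ _))
      intro j hj
      rw [Finset.mem_filter] at hj
      have h3 := hj.2
      push Not at h3
      obtain ⟨v, hv, y, rfl⟩ := h3
      exact ⟨_, Finset.mem_image_of_mem _ (Finset.mem_univ _), hv⟩
    rw [Finset.card_univ] at h1
    omega
  have hempty : ∀ Z : Finset V, IsP G X A B Z ∅ → 2 * k ≤ Z.card := fun Z hp => empty_cost hXm hc hp
  obtain ⟨J, hJ, hJc, hmin⟩ := levels h hAm hempty (J := J0)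
    (fun j hj => by rw [hJ0, Finset.mem_filter] at hj; exact hj.2) (2 * k) (le_refl _)
  have hJX : ∀ v ∈ X, ∀ j ∈ J, v ∉ B j := by
    intro v hv j hj hvj
    have := hJ hj
    rw [hJ0, Finset.mem_filter] at this
    exact this.2 v hvj hv
  have hJ3 : 3 * k ≤ J.card := by
    have h1 := Finset.sum_range_id_mul_two (2 * k)
    have h2 : 2 * k * (2 * k - 1) = 4 * k ^ 2 - 2 * k := by
      rw [Nat.mul_sub]
      congr 1
      · ring
      · ring
    have h3 : 2 * k ≤ 4 * k ^ 2 := by nlinarith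
    omega
  have hJne : J.Nonempty := Finset.card_pos.1 (by omega)
  obtain ⟨a, b, w, ha, hb, _, hd⟩ := menger (Ax G B J) (Sg ι X) (Tg A J) (2 * k)
    (fun Z0 hs => ax_sep h hA hAf hXm hc hne hJne hJX hmin Z0 hs)
  choose x hxX hx using ha
  have hxinj : Function.Injective x := by
    intro i i' hii
    by_contra hne'
    refine hd i i' hne' (a i) (w i).start_mem_support ?_
    rw [hx i, hii, ← hx i']
    exact (w i').start_mem_support
  have hsurj : ∀ y : Fin k ⊕ Fin k, ∃ i, x i = Sum.elim s t y := by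
    intro y
    have h1 : Finset.univ.image x = XF := by
      apply Finset.eq_of_subset_of_card_le
      · intro v hv
        rw [Finset.mem_image] at hv
        obtain ⟨i, _, rfl⟩ := hv
        obtain ⟨y', hy'⟩ := hxX i
        rw [hXF, Finset.mem_image]
        exact ⟨y', Finset.mem_univ _, hy'⟩
      · rw [hXFc, Finset.card_image_of_injective _ hxinj, Finset.card_univ, Fintype.card_fin]
    have h2 : Sum.elim s t y ∈ XF := Finset.mem_image_of_mem _ (Finset.mem_univ _)
    rw [← h1, Finset.mem_image] at h2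
    obtain ⟨i, _, hi⟩ := h2
    exact ⟨i, hi⟩
  choose idx hidx using hsurj
  have hidxinj : ∀ y y', y ≠ y' → idx y ≠ idx y' := by
    intro y y' hyy hii
    apply hyy
    apply hst
    rw [← hidx y, ← hidx y', hii]
  have htr := fun y => trunc h (w (idx y)) (hb (idx y)) (Sum.elim s t y) (by rw [hx, hidx])
  choose P hP1 hP2 hP3 hP4 hP5 using htr
  have hPd : ∀ y y', y ≠ y' → ∀ v ∈ P y, v ∉ P y' := fun y y' hyy v hv hv' =>
    hd _ _ (hidxinj y y' hyy) _ (hP2 y v hv) (hP2 y' v hv')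
  set L : Finset (Fin k ⊕ Fin k) := Finset.univ.filter fun y => ∀ a ∈ A, a ∉ P y with hL
  have hL' : ∀ y : {y // y ∈ L}, ∃ j ∈ J, Sum.inr j ∈ (w (idx y.1)).support ∧ ∃ p ∈ P y.1, ∃ b ∈ B j, G.Adj p b := by
    rintro ⟨y, hy⟩
    rw [hL, Finset.mem_filter] at hy
    rcases hP5 y with ⟨a, h1, h2, _⟩ | ⟨_, h3⟩
    · exact absurd h2 (hy.2 a h1)
    · exact h3
  choose jl hj1 hj2 hj3 using hL'
  have j0 := hJne.choose
  set jl' : Fin k ⊕ Fin k → ι := fun y => if hy : y ∈ L then jl ⟨y, hy⟩ else j0 with hjl'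
  have hjle : ∀ y (hy : y ∈ L), jl' y = jl ⟨y, hy⟩ := fun y hy => by rw [hjl']; simp only [hy, dif_pos]
  refine assemble2 h hAf hA hJ3 s t P (fun y => ⟨hP1 y, hP3 y, hP4 y⟩) hPd L jl' ?_ ?_ ?_
  · intro y hy
    rcases hP5 y with h1 | ⟨h2, _⟩
    · exact h1
    · exact absurd (Finset.mem_filter.2 ⟨Finset.mem_univ _, h2⟩) hy
  · intro y hy
    rw [hjle y hy]
    exact ⟨(Finset.mem_filter.1 hy).2, hj1 ⟨y, hy⟩, hj3 ⟨y, hy⟩⟩
  · intro y hy y' hy' hyy hjj
    rw [hjle y hy, hjle y' hy'] at hjj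
    refine hd _ _ (hidxinj y y' hyy) _ (hj2 ⟨y, hy⟩) ?_
    rw [hjj]
    exact hj2 ⟨y', hy'⟩

end Pool.Agent.LNK
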