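import Mathlib
import Pool.Agent.LNK.Rooted

/-!
Many small leaves at bounded distance from a root: a hub adjacent to many of them, after enlarging.
-/

set_option autoImplicit false

namespace Pool.Agent.LNK

open SimpleGraph

open Classical in
/-- a set with few conflicts contains a large set without conflicts -/
theorem indep {ι : Type*} (R : ι → ι → Prop) (D : ℕ) (K : ℕ) (J : Finset ι)
    (hR : ∀ i j, R i j → R j i)
    (hD : ∀ i ∈ J, (J.filter fun j => R i j).card ≤ D) (hJ : K * (D + 1) ≤ J.card) :
    ∃ I ⊆ J, I.card = K ∧ ∀ i ∈ I, ∀ j ∈ I, i ≠ j → ¬ R i j := by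
  induction K generalizing J with
  | zero => exact ⟨∅, by simp, by simp, by simp⟩
  | succ K ih =>
    have hring : (K + 1) * (D + 1) = K * (D + 1) + D + 1 := by ring
    have hne : J.Nonempty := Finset.card_pos.1 (by omega)
    obtain ⟨i, hi⟩ := hne
    set J' := (J.erase i).filter (fun j => ¬ R i j) with hJ'
    have hJ'J : J' ⊆ J := (Finset.filter_subset _ _).trans (Finset.erase_subset _ _)
    have hc : K * (D + 1) ≤ J'.card := by
      have h1 : ((J.erase i).filter fun j => R i j).card + J'.card = (J.erase i).card :=
        Finset.card_filter_add_card_filter_not _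
      have h2 : ((J.erase i).filter fun j => R i j).card ≤ D :=
        (Finset.card_le_card (Finset.filter_subset_filter _ (Finset.erase_subset _ _))).trans (hD i hi)
      rw [Finset.card_erase_of_mem hi] at h1
      omega
    obtain ⟨I, hI, hIc, hIi⟩ := ih J' (fun j hj =>
      (Finset.card_le_card (Finset.filter_subset_filter _ hJ'J)).trans (hD j (hJ'J hj))) hc
    have hiI : i ∉ I := fun h => by
      have := (Finset.mem_filter.1 (hI h)).1
      simp at this
    refine ⟨insert i I, ?_, ?_, ?_⟩
    · intro j hj
      rw [Finset.mem_insert] at hj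
      rcases hj with rfl | hj
      · exact hi
      · exact hJ'J (hI hj)
    · rw [Finset.card_insert_of_notMem hiI, hIc]
    · intro j hj j' hj' hjj
      rw [Finset.mem_insert] at hj hj'
      rcases hj with rfl | hj
      · rcases hj' with rfl | hj'
        · exact absurd rfl hjj
        · exact (Finset.mem_filter.1 (hI hj')).2
      · rcases hj' with rfl | hj'
        · exact fun h => (Finset.mem_filter.1 (hI hj)).2 (hR _ _ h)
        · exact hIi j hj j' hj' hjj

/-- leaves: disjoint nonempty connected finite sets of bounded size inside `P` -/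
structure Lf {V ι : Type*} (G : SimpleGraph V) (P : Set V) (b : ℕ) (B : ι → Finset V) : Prop where
  disj : ∀ i j, i ≠ j → ∀ v, v ∈ B i → v ∉ B j
  sub : ∀ j, ∀ v ∈ B j, v ∈ P
  conn : ∀ j, ∀ u ∈ B j, ∀ v ∈ B j, Jn G (B j : Set V) u v
  ne : ∀ j, (B j).Nonempty
  card : ∀ j, (B j).card ≤ b

open Classical in
theorem fan (b K d : ℕ) : ∃ M : ℕ, ∀ (V : Type) (G : SimpleGraph V) (P : Set V) (r : V), r ∈ P →
    ∀ B : Fin M → Finset V, Lf G P b B →
    (∀ j, ∃ v ∈ B j, ∃ w : G.Walk r v, w.length ≤ d ∧ ∀ x ∈ w.support, x ∈ P) →
    ∃ v ∈ P, ∃ f : Fin K → Fin M, ∃ B' : Fin K → Finset V, Lf G P (b + d) B' ∧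
      (∀ i, B (f i) ⊆ B' i) ∧ (∀ i, v ∉ B' i) ∧ ∀ i, ∃ u ∈ B' i, G.Adj v u := by
  induction d with
  | zero =>
    refine ⟨2, ?_⟩
    intro V G P r hr B hB hd
    exfalso
    have h : ∀ j, r ∈ B j := by
      intro j
      obtain ⟨v, hv, w, hw, _⟩ := hd j
      rw [Walk.eq_of_length_eq_zero (Nat.le_zero.1 hw)]
      exact hv
    exact hB.disj 0 1 (by decide) r (h 0) (h 1)
  | succ d ih =>
    obtain ⟨M', hM'⟩ := ih
    obtain ⟨M, hM⟩ : ∃ M, M = K * ((b + (d + 1)) * M' + 1) + 1 := ⟨_, rfl⟩
    refine ⟨M, ?_⟩
    intro V G P r hr B hB hd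
    set near : V → Fin M → Prop := fun y j => ∃ v ∈ B j, ∃ w : G.Walk y v, w.length ≤ d ∧
      ∀ x ∈ w.support, x ∈ P with hnear
    by_cases hA : ∃ y ∈ P, M' ≤ (Finset.univ.filter fun j => near y j).card
    · obtain ⟨y, hy, hyc⟩ := hA
      obtain ⟨e⟩ : Nonempty (Fin M' ↪ {j // j ∈ Finset.univ.filter fun j => near y j}) := by
        apply Function.Embedding.nonempty_of_card_le
        rw [Fintype.card_coe, Fintype.card_fin]
        exact hyc
      obtain ⟨v, hv, f, B', hB', h1, h2, h3⟩ := hM' V G P y hy (fun i => B (e i).1)
        ⟨fun i j hij => hB.disj _ _ (fun h => hij (e.injective (Subtype.ext h))), fun j => hB.sub _,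
          fun j => hB.conn _, fun j => hB.ne _, fun j => hB.card _⟩
        (fun j => (Finset.mem_filter.1 (e j).2).2)
      exact ⟨v, hv, fun i => (e (f i)).1, B', ⟨hB'.disj, hB'.sub, hB'.conn, hB'.ne,
        fun j => (hB'.card j).trans (by omega)⟩, h1, h2, h3⟩
    · push Not at hA
      have hQ : ∀ j, r ∉ B j → ∃ Q : Finset V, Q.card ≤ b + (d + 1) ∧ B j ⊆ Q ∧ (∀ y ∈ Q, y ∈ P) ∧
          r ∉ Q ∧ (∃ u ∈ Q, G.Adj r u) ∧ (∀ u ∈ Q, ∀ v ∈ Q, Jn G (Q : Set V) u v) ∧
          ∀ y ∈ Q, near y j := by
        intro j hj
        obtain ⟨v, hv, w, hwl, hwP⟩ := hd j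
        have hb := w.bypass_isPath
        have hbs : ∀ x ∈ w.bypass.support, x ∈ P := fun x hx => hwP x (w.support_bypass_subset_support hx)
        have hbl : w.bypass.length ≤ d + 1 := (w.length_bypass_le_length).trans hwl
        revert hb hbs hbl
        generalize w.bypass = q
        intro hb hbs hbl
        cases q with
        | nil => exact absurd hv hj
        | @cons _ x _ hadj q =>
          rw [Walk.cons_isPath_iff] at hb
          rw [Walk.length_cons] at hbl
          have hqP : ∀ y ∈ q.support, y ∈ P := fun y hy => hbs y (by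
            rw [Walk.support_cons]; exact List.mem_cons_of_mem _ hy)
          have hcv : ∀ u ∈ q.support.toFinset ∪ B j,
              Jn G ((q.support.toFinset ∪ B j : Finset V) : Set V) u v := by
            intro u hu
            rw [Finset.mem_union, List.mem_toFinset] at hu
            rcases hu with hu | hu
            · refine ⟨q.dropUntil u hu, fun y hy => ?_⟩
              rw [Finset.mem_coe, Finset.mem_union, List.mem_toFinset]
              exact Or.inl (q.support_dropUntil_subset_support hu hy)
            · refine (hB.conn j u hu v hv).mono ?_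
              intro y hy
              rw [Finset.mem_coe, Finset.mem_union]
              exact Or.inr (by simpa using hy)
          refine ⟨q.support.toFinset ∪ B j, ?_, ?_, ?_, ?_, ?_, ?_, ?_⟩
          · have h1 := Finset.card_union_le q.support.toFinset (B j)
            have h2 := List.toFinset_card_le q.support
            rw [Walk.length_support] at h2
            have h3 := hB.card j
            omega
          · exact Finset.subset_union_right
          · intro y hy
            rw [Finset.mem_union, List.mem_toFinset] at hy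
            rcases hy with hy | hy
            · exact hqP y hy
            · exact hB.sub j y hy
          · rw [Finset.mem_union, List.mem_toFinset]
            rintro (h | h)
            · exact hb.2 h
            · exact hj h
          · exact ⟨x, by rw [Finset.mem_union, List.mem_toFinset]; exact Or.inl q.start_mem_support, hadj⟩
          · intro u hu u' hu'
            exact (hcv u hu).trans (hcv u' hu').symm
          · intro y hy
            rw [Finset.mem_union, List.mem_toFinset] at hy
            rcases hy with hy | hy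
            · exact ⟨v, hv, q.dropUntil y hy, (q.length_dropUntil_le_length hy).trans (by omega),
                fun z hz => hqP z (q.support_dropUntil_subset_support hy hz)⟩
            · exact ⟨y, hy, Walk.nil, Nat.zero_le _, fun z hz => by
                rw [Walk.support_nil, List.mem_singleton] at hz
                rw [hz]
                exact hB.sub j y hy⟩
      choose! Q hQc hQB hQP hQr hQadj hQconn hQnear using hQ
      set J : Finset (Fin M) := Finset.univ.filter fun j => r ∉ B j with hJ
      have hJc : K * ((b + (d + 1)) * M' + 1) ≤ J.card := by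
        have h1 : (Finset.univ.filter fun j => r ∈ B j).card + J.card = (Finset.univ : Finset (Fin M)).card :=
          Finset.card_filter_add_card_filter_not _
        have h2 : (Finset.univ.filter fun j => r ∈ B j).card ≤ 1 := by
          rw [Finset.card_le_one]
          intro i hi j hj
          by_contra hij
          exact hB.disj i j hij r (Finset.mem_filter.1 hi).2 (Finset.mem_filter.1 hj).2
        rw [Finset.card_univ, Fintype.card_fin] at h1
        omega
      have hmJ : ∀ j ∈ J, r ∉ B j := fun j hj => (Finset.mem_filter.1 hj).2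
      obtain ⟨R, hR⟩ : ∃ R : Fin M → Fin M → Prop, ∀ i j, R i j ↔ ∃ y, y ∈ Q i ∧ y ∈ Q j :=
        ⟨_, fun _ _ => Iff.rfl⟩
      obtain ⟨I, hIJ, hIc, hI⟩ := indep R ((b + (d + 1)) * M') K J
        (fun i j h => by
          obtain ⟨y, h1, h2⟩ := (hR i j).1 h
          exact (hR j i).2 ⟨y, h2, h1⟩) (by
          intro i hi
          have h2 : ((Q i).biUnion fun y => Finset.univ.filter fun j => near y j).card ≤ (Q i).card * M' :=
            Finset.card_biUnion_le_card_mul _ _ M' fun y hy => (hA y (hQP i (hmJ i hi) y hy)).le
          refine le_trans (Finset.card_le_card (t := (Q i).biUnion fun y => Finset.univ.filter fun j => near y j)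
            ?_) (h2.trans (Nat.mul_le_mul_right _ (hQc i (hmJ i hi))))
          intro j hj
          rw [Finset.mem_filter] at hj
          obtain ⟨hjJ, hj⟩ := hj
          obtain ⟨y, hyi, hyj⟩ := (hR i j).1 hj
          rw [Finset.mem_biUnion]
          exact ⟨y, hyi, Finset.mem_filter.2 ⟨Finset.mem_univ _, hQnear j (hmJ j hjJ) y hyj⟩⟩) hJc
      set e := (I.equivFinOfCardEq hIc).symm with he
      have hej : ∀ i, r ∉ B (e i).1 := fun i => hmJ _ (hIJ (e i).2)
      refine ⟨r, hr, fun i => (e i).1, fun i => Q (e i).1, ⟨?_, ?_, ?_, ?_, ?_⟩, ?_, ?_, ?_⟩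
      · intro i j hij y hyi hyj
        refine hI _ (e i).2 _ (e j).2 ?_ ((hR _ _).2 ⟨y, hyi, hyj⟩)
        intro h
        exact hij (e.injective (Subtype.ext h))
      · exact fun i => hQP _ (hej i)
      · exact fun i => hQconn _ (hej i)
      · intro i
        obtain ⟨u, hu, _⟩ := hQadj _ (hej i)
        exact ⟨u, hu⟩
      · exact fun i => hQc _ (hej i)
      · exact fun i => hQB _ (hej i)
      · exact fun i => hQr _ (hej i)
      · exact fun i => hQadj _ (hej i)

end Pool.Agent.LNK
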