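import Mathlib
import Pool.Agent.LNK.Fan

/-!
Large graphs of bounded fault diameter contain hubs with many small leaves.
-/

set_option autoImplicit false

namespace Pool.Agent.LNK

open SimpleGraph

open Classical in
theorem hubs (d i : ℕ) : ∀ K : ℕ, ∃ N : ℕ, ∀ (V : Type) [Fintype V] (G : SimpleGraph V), N ≤ Fintype.card V →
    (∀ S : Finset V, S.card < i → ∀ u v, u ∉ S → v ∉ S →
      ∃ w : G.Walk u v, w.length ≤ d ∧ ∀ x ∈ w.support, x ∉ S) →
    ∃ S : Finset V, S.card = i ∧ ∃ B : Fin K → Finset V, Lf G {v | v ∉ S} (1 + i * d) B ∧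
      ∀ j, ∀ a ∈ S, ∃ u ∈ B j, G.Adj a u := by
  induction i with
  | zero =>
    intro K
    refine ⟨K, ?_⟩
    intro V _ G hN _
    obtain ⟨e⟩ : Nonempty (Fin K ↪ V) := by
      apply Function.Embedding.nonempty_of_card_le
      rwa [Fintype.card_fin]
    refine ⟨∅, rfl, fun j => {e j}, ⟨?_, ?_, ?_, ?_, ?_⟩, ?_⟩
    · intro i j hij v hv hv'
      rw [Finset.mem_singleton] at hv hv'
      exact hij (e.injective (hv.symm.trans hv'))
    · intro j v _
      simp
    · intro j u hu v hv
      rw [Finset.mem_singleton] at hu hv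
      rw [hu, hv]
      exact Jn.refl (by simp)
    · intro j
      exact ⟨e j, Finset.mem_singleton_self _⟩
    · intro j
      rw [Finset.card_singleton]
      omega
    · intro j a ha
      simp at ha
  | succ i ih =>
    intro K
    obtain ⟨M, hM⟩ := fan (1 + i * d) K d
    obtain ⟨N, hN⟩ := ih M
    refine ⟨max N (i + 1), ?_⟩
    intro V _ G hV hG
    obtain ⟨S, hS, B, hB, hBa⟩ := hN V G ((le_max_left _ _).trans hV) fun S hS => hG S (by omega)
    obtain ⟨r, hr⟩ : ∃ r, r ∉ S := by
      by_contra hcon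
      push Not at hcon
      have h1 : (Finset.univ : Finset V) ⊆ S := fun v _ => hcon v
      have h2 := Finset.card_le_card h1
      rw [Finset.card_univ, hS] at h2
      have h3 := (le_max_right N (i + 1)).trans hV
      omega
    obtain ⟨v, hv, f, B', hB', h1, h2, h3⟩ := hM V G {v | v ∉ S} r hr B hB (by
      intro j
      obtain ⟨v, hv⟩ := hB.ne j
      obtain ⟨w, hw1, hw2⟩ := hG S (by omega) r v hr (hB.sub j v hv)
      exact ⟨v, hv, w, hw1, hw2⟩)
    refine ⟨insert v S, ?_, B', ⟨hB'.disj, ?_, hB'.conn, hB'.ne, ?_⟩, ?_⟩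
    · rw [Finset.card_insert_of_notMem hv, hS]
    · intro j u hu
      rw [Set.mem_ofPred_eq, Finset.mem_insert]
      rintro (h | h)
      · rw [h] at hu
        exact h2 j hu
      · exact hB'.sub j u hu h
    · intro j
      refine (hB'.card j).trans ?_
      have : (i + 1) * d = i * d + d := by ring
      omega
    · intro j a ha
      rw [Finset.mem_insert] at ha
      rcases ha with rfl | ha
      · exact h3 j
      · obtain ⟨u, hu, hau⟩ := hBa (f j) a ha
        exact ⟨u, h1 j hu, hau⟩

end Pool.Agent.LNK
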