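import Mathlib
import Pool.Agent.LNK.Rooted

/-!
Large connected graphs without long paths are broken into many pieces by few vertices.
-/

set_option autoImplicit false

namespace Pool.Agent.LNK

open SimpleGraph

variable {V : Type*} {G : SimpleGraph V}

/-- the vertices reached from `v` inside `D` -/
def cmp (G : SimpleGraph V) (D : Set V) (v : V) : Set V := {y | Jn G D v y}

theorem cmp_sub {D : Set V} {v : V} : cmp G D v ⊆ D := by
  rintro y ⟨w, hw⟩
  exact hw y w.end_mem_support

theorem cmp_walk {D : Set V} {v x y : V} (hx : x ∈ cmp G D v) (w : G.Walk x y)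
    (hw : ∀ z ∈ w.support, z ∈ D) : ∀ z ∈ w.support, z ∈ cmp G D v := by
  classical
  intro z hz
  exact Jn.trans hx ⟨w.takeUntil z hz, fun q hq => hw q (w.support_takeUntil_subset_support hz hq)⟩

theorem cmp_conn {D : Set V} {v x y : V} (hx : x ∈ cmp G D v) (hy : y ∈ cmp G D v) :
    Jn G (cmp G D v) x y := by
  obtain ⟨w, hw⟩ := (Jn.symm hx).trans hy
  exact ⟨w, cmp_walk hx w hw⟩

theorem cmp_adj {D : Set V} {v x y : V} (hx : x ∈ cmp G D v) (hy : y ∈ D) (h : G.Adj x y) :
    y ∈ cmp G D v := Jn.trans hx (Jn.of_adj h (cmp_sub hx) hy)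

theorem cmp_eq {D : Set V} {v x : V} (hx : x ∈ cmp G D v) : cmp G D x = cmp G D v := by
  ext y
  exact ⟨fun h => Jn.trans hx h, fun h => (Jn.symm hx).trans h⟩

open Classical in
theorem star (M : ℕ) (l : ℕ) : ∃ N0 : ℕ, ∀ (V : Type) (G : SimpleGraph V) (C : Finset V) (u : V),
    u ∈ C → (∀ v ∈ C, Jn G (C : Set V) u v) →
    (∀ (v : V) (p : G.Walk u v), p.IsPath → (∀ x ∈ p.support, x ∈ C) → p.length ≤ l) → N0 ≤ C.card →
    ∃ A : Finset V, A ⊆ C ∧ A.card ≤ l + 1 ∧ ∃ B : Fin M → Set V,
      (∀ i j, i ≠ j → ∀ v, v ∈ B i → v ∉ B j) ∧ (∀ j, (B j).Nonempty) ∧ (∀ j, ∀ v ∈ B j, v ∈ C ∧ v ∉ A) ∧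
      (∀ j, ∀ x ∈ B j, ∀ y ∈ B j, Jn G (B j) x y) ∧
      ∀ j, ∀ x ∈ B j, ∀ y ∈ C, G.Adj x y → y ∈ B j ∨ y ∈ A := by
  induction l with
  | zero =>
    refine ⟨2, ?_⟩
    intro V G C u hu hC hp hN
    exfalso
    obtain ⟨v, hv, hvu⟩ : ∃ v ∈ C, v ≠ u := by
      by_contra hcon
      push Not at hcon
      have : C ⊆ {u} := fun v hv => Finset.mem_singleton.2 (hcon v hv)
      have := Finset.card_le_card this
      rw [Finset.card_singleton] at this
      omega
    obtain ⟨w, hw⟩ := hC v hv
    have h1 := hp v w.bypass w.bypass_isPath fun x hx => hw x (w.support_bypass_subset_support hx)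
    have h2 : w.bypass.length = 0 := by omega
    exact hvu (Walk.eq_of_length_eq_zero h2).symm
  | succ l ih =>
    obtain ⟨N0, hN0⟩ := ih
    refine ⟨M * N0 + 2, ?_⟩
    intro V G C u hu hC hp hN
    set D : Finset V := C.erase u with hD
    have hDc : M * N0 + 1 ≤ D.card := by
      rw [hD, Finset.card_erase_of_mem hu]
      omega
    have hDC : (D : Set V) ⊆ C := by
      intro v hv
      rw [Finset.mem_coe, hD] at hv
      exact Finset.mem_of_mem_erase hv
    have hmemD : ∀ v, v ∈ (D : Set V) ↔ v ≠ u ∧ v ∈ C := by
      intro v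
      rw [Finset.mem_coe, hD, Finset.mem_erase]
    set F : Finset (Set V) := D.image (cmp G (D : Set V)) with hF
    by_cases hFM : M ≤ F.card
    · -- many components
      obtain ⟨g⟩ : Nonempty (Fin M ↪ {c // c ∈ F}) := by
        apply Function.Embedding.nonempty_of_card_le
        rw [Fintype.card_coe, Fintype.card_fin]
        exact hFM
      have hg : ∀ i, ∃ v ∈ D, cmp G (D : Set V) v = (g i).1 := by
        intro i
        exact Finset.mem_image.1 (g i).2
      choose v hvD hv using hg
      refine ⟨{u}, by simpa using hu, by simp, fun i => cmp G (D : Set V) (v i), ?_, ?_, ?_, ?_, ?_⟩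
      · intro i j hij x hx hx'
        apply hij
        apply g.injective
        apply Subtype.ext
        rw [← hv i, ← hv j, ← cmp_eq hx, ← cmp_eq hx']
      · intro j
        exact ⟨v j, Jn.refl (by simpa using hvD j)⟩
      · intro j x hx
        have := (hmemD x).1 (cmp_sub hx)
        exact ⟨this.2, by simpa using this.1⟩
      · intro j x hx y hy
        exact cmp_conn hx hy
      · intro j x hx y hy hxy
        by_cases hyu : y = u
        · exact Or.inr (by simp [hyu])
        · exact Or.inl (cmp_adj hx ((hmemD y).2 ⟨hyu, hy⟩) hxy)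
    · -- a large component
      rw [not_le] at hFM
      obtain ⟨c, hcF, hc⟩ : ∃ c ∈ F, N0 ≤ (D.filter fun v => cmp G (D : Set V) v = c).card := by
        apply Finset.exists_le_card_fiber_of_mul_le_card_of_maps_to
        · intro a ha
          exact Finset.mem_image_of_mem _ ha
        · have : D.Nonempty := Finset.card_pos.1 (by omega)
          exact this.image _
        · have := Nat.mul_le_mul_right N0 hFM.le
          omega
      set C' : Finset V := D.filter fun v => cmp G (D : Set V) v = c with hC'
      have hC'c : ∀ v, v ∈ C' ↔ v ∈ c := by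
        intro v
        rw [hC', Finset.mem_filter]
        rw [hF, Finset.mem_image] at hcF
        obtain ⟨v0, hv0, rfl⟩ := hcF
        constructor
        · rintro ⟨h1, h2⟩
          rw [← h2]
          exact Jn.refl (by simpa using h1)
        · intro h1
          exact ⟨by simpa using cmp_sub h1, cmp_eq h1⟩
      have hC'eq : (C' : Set V) = c := by
        ext v
        exact hC'c v
      have hC'D : ∀ v ∈ C', v ∈ D := fun v hv => (Finset.mem_filter.1 hv).1
      rw [hF, Finset.mem_image] at hcF
      obtain ⟨v0, hv0, hv0c⟩ := hcF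
      have hv0c' : v0 ∈ cmp G (D : Set V) v0 := Jn.refl (by simpa using hv0)
      -- a neighbour of u in the component
      obtain ⟨u', hu', huu'⟩ : ∃ u' ∈ C', G.Adj u u' := by
        have hv0C := (hmemD v0).1 (by simpa using hv0)
        obtain ⟨w, hw⟩ := hC v0 hv0C.2
        have hb := w.bypass_isPath
        have hbs : ∀ x ∈ w.bypass.support, x ∈ C := fun x hx => hw x (w.support_bypass_subset_support hx)
        revert hb hbs
        generalize w.bypass = q
        intro hb hbs
        cases q with
        | nil => exact absurd rfl hv0C.1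
        | @cons _ u' _ hadj q =>
          refine ⟨u', ?_, hadj⟩
          rw [Walk.cons_isPath_iff] at hb
          rw [hC'c, ← hv0c]
          refine Jn.symm ⟨q, fun x hx => ?_⟩
          rw [hmemD]
          refine ⟨?_, hbs x ?_⟩
          · rintro rfl
            exact hb.2 hx
          · rw [Walk.support_cons]
            exact List.mem_cons_of_mem _ hx
      have hu'c := (hC'c u').1 hu'
      rw [← hv0c] at hu'c hC'eq
      obtain ⟨A', hA1, hA2, B, hB1, hB2, hB3, hB4, hB5⟩ := hN0 V G C' u' hu' (by
          intro v hv
          rw [hC'eq]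
          refine cmp_conn hu'c ?_
          rw [hv0c]
          exact (hC'c v).1 hv) (by
          intro v p hpath hps
          have h1 := hp v (Walk.cons huu' p) (by
            rw [Walk.cons_isPath_iff]
            refine ⟨hpath, fun hus => ?_⟩
            have := hC'D u (hps u hus)
            simp [hD] at this) (by
            intro x hx
            rw [Walk.support_cons, List.mem_cons] at hx
            rcases hx with rfl | hx
            · exact hu
            · exact hDC (by simpa using hC'D x (hps x hx)))
          rw [Walk.length_cons] at h1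
          omega) hc
      refine ⟨insert u A', ?_, ?_, B, hB1, hB2, ?_, hB4, ?_⟩
      · intro x hx
        rw [Finset.mem_insert] at hx
        rcases hx with rfl | hx
        · exact hu
        · exact hDC (by simpa using hC'D x (hA1 hx))
      · have := Finset.card_insert_le u A'
        omega
      · intro j x hx
        obtain ⟨h1, h2⟩ := hB3 j x hx
        have h3 := (hmemD x).1 (by simpa using hC'D x h1)
        refine ⟨h3.2, ?_⟩
        rw [Finset.mem_insert]
        rintro (h4 | h4)
        · exact h3.1 h4
        · exact h2 h4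
      · intro j x hx y hy hxy
        by_cases hyu : y = u
        · exact Or.inr (by simp [hyu])
        · have hx' : x ∈ cmp G (D : Set V) v0 := by
            rw [hv0c]
            exact (hC'c x).1 (hB3 j x hx).1
          have h1 := cmp_adj hx' ((hmemD y).2 ⟨hyu, hy⟩) hxy
          rw [hv0c] at h1
          rcases hB5 j x hx y ((hC'c y).2 h1) hxy with h2 | h2
          · exact Or.inl h2
          · exact Or.inr (Finset.mem_insert_of_mem h2)

end Pool.Agent.LNK
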