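import Mathlib
import Pool.Agent.LNK.Star

/-!
Large 2k-connected graphs without long paths are k-linked.
-/

set_option autoImplicit false

namespace Pool.Agent.Results.MP_e4231c_co.NoLongPath

open SimpleGraph Pool.Agent.LNK

open Classical in
/-- For all `k` and `l` there is `N` such that every finite graph with at least `N` vertices which is
`2k`-connected and has no path of length greater than `l` is `k`-linked. -/
theorem result : ∀ k l : ℕ, ∃ N : ℕ, ∀ (V : Type) [Fintype V] (G : SimpleGraph V),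
    N ≤ Fintype.card V →
    (2 * k < Fintype.card V ∧
      ∀ S : Finset V, S.card < 2 * k → (G.induce ((S : Set V)ᶜ)).Connected) →
    (∀ (u v : V) (p : G.Walk u v), p.IsPath → p.length ≤ l) →
    ∀ s t : Fin k → V, Function.Injective (Sum.elim s t) →
      ∃ p : ∀ i, G.Walk (s i) (t i),
        (∀ i, (p i).IsPath) ∧
        ∀ i j, i ≠ j → ∀ v, v ∈ (p i).support → v ∉ (p j).support := by
  intro k l
  rcases Nat.eq_zero_or_pos k with rfl | hk
  · exact ⟨0, fun V _ G _ _ _ s t _ => ⟨fun i => i.elim0, fun i => i.elim0, fun i => i.elim0⟩⟩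
  set M : ℕ := 2 ^ (l + 1) * (2 * k ^ 2 + 4 * k) + 2 with hM
  obtain ⟨N0, hN0⟩ := star M l
  refine ⟨N0, ?_⟩
  intro V _ G hN hG hlong s t hst
  have hjn : ∀ Z : Finset V, Z.card < 2 * k → ∀ u v, u ∉ Z → v ∉ Z → Jn G ((Z : Set V)ᶜ) u v := by
    intro Z hZ u v hu hv
    exact jn_of_connected (hG.2 Z hZ) (by simpa using hu) (by simpa using hv)
  set u : V := s ⟨0, hk⟩ with hu
  obtain ⟨A, _, hAc, B, hB1, hB2, hB3, hB4, hB5⟩ := hN0 V G Finset.univ u (Finset.mem_univ _) (by
      intro v _
      exact (hjn ∅ (by simp; omega) u v (by simp) (by simp)).mono (by simp)) (fun v p hp _ => hlong u v p hp)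
      (by rw [Finset.card_univ]; exact hN)
  -- the neighbours of a piece
  have hnb : ∀ j, 2 * k ≤ (A.filter fun a => ∃ b ∈ B j, G.Adj a b).card := by
    intro j
    by_contra hcon
    rw [not_le] at hcon
    obtain ⟨i, hij⟩ : ∃ i : Fin M, i ≠ j := by
      have h1 : 1 < Fintype.card (Fin M) := by
        rw [Fintype.card_fin]
        omega
      exact Fintype.exists_ne_of_one_lt_card h1 j
    obtain ⟨x, hx⟩ := hB2 j
    obtain ⟨y, hy⟩ := hB2 i
    set Z := A.filter fun a => ∃ b ∈ B j, G.Adj a b with hZ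
    have hxZ : x ∉ Z := fun h => (hB3 j x hx).2 (Finset.mem_filter.1 h).1
    have hyZ : y ∉ Z := fun h => (hB3 i y hy).2 (Finset.mem_filter.1 h).1
    obtain ⟨w, hw⟩ := hjn Z hcon x y hxZ hyZ
    have key : ∀ {a b : V} (w : G.Walk a b), a ∈ B j → (∀ z ∈ w.support, z ∈ ((Z : Set V)ᶜ)) → b ∈ B j := by
      intro a b w
      induction w with
      | nil => intro h _; exact h
      | @cons a c b hadj w ih =>
        intro ha hw
        refine ih ?_ fun z hz => hw z (by rw [Walk.support_cons]; exact List.mem_cons_of_mem _ hz)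
        rcases hB5 j a ha c (Finset.mem_univ _) hadj with h1 | h1
        · exact h1
        · exfalso
          have h2 : c ∈ Z := by
            rw [hZ, Finset.mem_filter]
            exact ⟨h1, a, ha, hadj.symm⟩
          exact hw c (by rw [Walk.support_cons]; exact List.mem_cons_of_mem _ w.start_mem_support)
            (by simpa using h2)
    exact hB1 i j hij y hy (key w hx hw)
  have hT : ∀ j, ∃ T ⊆ A.filter fun a => ∃ b ∈ B j, G.Adj a b, T.card = 2 * k - 1 := by
    intro j
    exact Finset.exists_subset_card_eq ((Nat.sub_le _ _).trans (hnb j))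
  choose T hT1 hT2 using hT
  -- pigeonhole
  obtain ⟨T0, _, hT0⟩ : ∃ T0 ∈ A.powerset, 2 * k ^ 2 + 4 * k ≤
      ((Finset.univ : Finset (Fin M)).filter fun j => T j = T0).card := by
    apply Finset.exists_le_card_fiber_of_mul_le_card_of_maps_to
    · intro j _
      rw [Finset.mem_powerset]
      exact (hT1 j).trans (Finset.filter_subset _ _)
    · exact ⟨∅, Finset.empty_mem_powerset _⟩
    · rw [Finset.card_powerset, Finset.card_univ, Fintype.card_fin, hM]
      have h1 : 2 ^ A.card ≤ 2 ^ (l + 1) := Nat.pow_le_pow_right (by norm_num) hAc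
      have h2 := Nat.mul_le_mul_right (2 * k ^ 2 + 4 * k) h1
      omega
  let ι := {j : Fin M // T j = T0}
  have hcard : 2 * k ^ 2 + 4 * k ≤ Fintype.card ι := by
    refine hT0.trans (le_of_eq ?_)
    rw [Fintype.card_subtype]
  have hι0 : Nonempty ι := by
    rw [← Fintype.card_pos_iff]
    have : 0 < k ^ 2 := by positivity
    omega
  obtain ⟨j0⟩ := hι0
  have hTj : ∀ j : ι, ∀ a ∈ T0, a ∈ A ∧ ∃ b ∈ B j.1, G.Adj a b := by
    intro j a ha
    rw [← j.2] at ha
    exact Finset.mem_filter.1 (hT1 j.1 ha)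
  have h : Hyp G (T0 : Set V) (fun j : ι => B j.1) := by
    refine ⟨?_, ?_, ?_, ?_⟩
    · intro i j hij v hv hv'
      exact hB1 i.1 j.1 (fun h => hij (Subtype.ext h)) v hv hv'
    · intro j a ha hab
      exact (hB3 j.1 a hab).2 (hTj j a (by simpa using ha)).1
    · intro j x hx y hy
      exact hB4 j.1 x hx y hy
    · intro j a ha
      exact (hTj j a (by simpa using ha)).2
  refine rooted (ι := ι) hk hcard hjn (A := (T0 : Set V)) ?_ h (fun j => hB2 j.1) s t hst
  rw [Set.ncard_coe_finset, ← j0.2, hT2]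
  omega

end Pool.Agent.Results.MP_e4231c_co.NoLongPath
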